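import Pool.Agent.Q99.HT.Stm1
import Pool.Agent.Q210.KN.WB

/-!
# Highly twisted links (helper99), job D1: brackets at the lattice points
-/

set_option autoImplicit false

namespace Pool.Agent.Q208.HT

open Finset
open Pool.Agent.W719.BS (D D_pos D_refl)
open Pool.Agent.Q99.FAL (bq)
open Pool.Agent.Q99.KN
open Pool.Agent.Q210.KN (P_nat P_nat0 bn_eq bn_zero bd_le bd_le0 bq_eq bc_der D_succ' sn_norm_low
  D_zero)

/-- the real sine -/
noncomputable def ss (N : ℕ) (x : ℝ) : ℝ := 2 * Real.sin (Real.pi * x / N)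

theorem ss_mono {N : ℕ} (hN : 0 < N) {x y : ℝ} (hx : 0 ≤ x) (hxy : x ≤ y) (hy : y ≤ N - x) :
    ss N x ≤ ss N y := by
  have hN0 : (0 : ℝ) < N := by exact_mod_cast hN
  have hpi := Real.pi_pos
  unfold ss
  have key : ∀ {u v : ℝ}, 0 ≤ u → u ≤ v → v ≤ N / 2 →
      Real.sin (Real.pi * u / N) ≤ Real.sin (Real.pi * v / N) := by
    intro u v hu huv hv
    apply Real.sin_le_sin_of_le_of_le_pi_div_two
    · have : 0 ≤ Real.pi * u / N := by positivity
      linarith
    · rw [div_le_iff₀ hN0]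
      nlinarith
    · exact div_le_div_of_nonneg_right (mul_le_mul_of_nonneg_left huv hpi.le) hN0.le
  rcases le_total y (N / 2) with h | h
  · have := key hx hxy h
    linarith
  · have h1 : Real.sin (Real.pi * y / N) = Real.sin (Real.pi * (N - y) / N) := by
      rw [← Real.sin_pi_sub]
      congr 1
      field_simp
    have h2 := key hx (show x ≤ N - y by linarith) (by linarith)
    rw [h1]
    linarith

theorem ss_pos {N : ℕ} {m : ℕ} (h0 : 0 < m) (h : m < N) : 0 < ss N m := by
  have hN0 : (0 : ℝ) < N := by exact_mod_cast (by omega : 0 < N)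
  have hpi := Real.pi_pos
  unfold ss
  have : 0 < Real.sin (Real.pi * m / N) := by
    apply Real.sin_pos_of_pos_of_lt_pi
    · have : (0 : ℝ) < m := by exact_mod_cast h0
      positivity
    · rw [div_lt_iff₀ hN0]
      have : (m : ℝ) < N := by exact_mod_cast h
      nlinarith
  linarith

theorem Ds (N k : ℕ) : (D N (k + 1) : ℝ) = D N k * ss N ((k + 1 : ℕ) : ℝ) := by
  rw [D_succ']
  unfold ss
  push_cast
  rfl

theorem D0 (N : ℕ) : (D N 0 : ℝ) = 1 := by
  unfold D
  simp

/-- superadditivity -/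
theorem DD {N : ℕ} (b : ℕ) : ∀ a : ℕ, b + 2 * a ≤ N → a + b < N → D N a * D N b ≤ D N (a + b) := by
  intro a
  induction a with
  | zero =>
    intro _ _
    rw [D0, one_mul, zero_add]
  | succ a ih =>
    intro h1 h2
    have h3 := ih (by omega) (by omega)
    have h4 := D_pos N a (by omega)
    have h5 := D_pos N b (by omega)
    have h6 := ss_pos (N := N) (m := a + 1) (by omega) (by omega)
    rw [show a + 1 + b = a + b + 1 by ring, Ds, Ds]
    have h7 : ss N ((a + 1 : ℕ) : ℝ) ≤ ss N ((a + b + 1 : ℕ) : ℝ) := by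
      apply ss_mono (by omega) (Nat.cast_nonneg _)
      · exact_mod_cast (by omega : a + 1 ≤ a + b + 1)
      · rw [le_sub_iff_add_le]
        exact_mod_cast (by omega : a + b + 1 + (a + 1) ≤ N)
    calc D N a * ss N ((a + 1 : ℕ) : ℝ) * D N b = D N a * D N b * ss N ((a + 1 : ℕ) : ℝ) := by ring
      _ ≤ D N (a + b) * ss N ((a + b + 1 : ℕ) : ℝ) := by
          apply mul_le_mul h3 h7 h6.le
          exact (D_pos N _ (by omega)).le

theorem bq_val {N n y : ℕ} (hn : n < N) (h : y ≤ n) :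
    bq N n y = D N n / (D N (n - y) * D N y) := by
  rw [bq_eq hn h, bn_eq hn h, div_div]

theorem bq_zero {N n y : ℕ} (h : n < y) : bq N n y = 0 := by
  unfold bq Pool.Agent.Q99.FW.TZ
  rw [if_neg]
  omega

theorem bc_val {N n k : ℕ} (hn : n < N) (hk : k < N) : bc N n k = ((bq N n k : ℝ) : ℂ) := by
  rcases le_or_gt k n with h | h
  · rw [bq_val hn h]
    have h1 := P_nat (N := N) h
    have h2 : (D N (n - k) : ℂ) ≠ 0 := by exact_mod_cast (D_pos N (n - k) (by omega)).ne'
    have h3 : (D N k : ℂ) ≠ 0 := by exact_mod_cast (D_pos N k hk).ne'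
    unfold bc
    push_cast
    rw [div_eq_div_iff h3 (mul_ne_zero h2 h3), ← h1]
    ring
  · rw [bn_zero h, bq_zero h]
    simp

theorem zl_p (N n : ℕ) : ((N : ℂ) - 1 + zl N n) / 2 = n := by
  unfold zl
  ring

theorem zl_m (N n : ℕ) : ((N : ℂ) - 1 - -zl N n) / 2 = n := by
  unfold zl
  ring

theorem der_p (N n k : ℕ) : ‖deriv (fun z : ℂ => bc N ((N - 1 + z) / 2) k) (zl N n)‖ =
    1 / 2 * ‖deriv (fun n : ℂ => bc N n k) (n : ℂ)‖ := by
  have h1 : HasDerivAt (fun z : ℂ => ((N : ℂ) - 1 + z) / 2) (1 / 2) (zl N n) :=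
    ((hasDerivAt_id _).const_add _).div_const _
  have h2 := (bc_der (N := N) k (((N : ℂ) - 1 + zl N n) / 2)).differentiableAt.hasDerivAt
  have h3 := HasDerivAt.comp (zl N n) (h₂ := fun n : ℂ => bc N n k) h2 h1
  have h4 : deriv (fun z : ℂ => bc N ((N - 1 + z) / 2) k) (zl N n) =
      deriv (fun n : ℂ => bc N n k) (((N : ℂ) - 1 + zl N n) / 2) * (1 / 2) := h3.deriv
  rw [h4, zl_p, norm_mul]
  norm_num
  ring

theorem der_m (N n k : ℕ) : ‖deriv (fun z : ℂ => bc N ((N - 1 - z) / 2) k) (-zl N n)‖ =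
    1 / 2 * ‖deriv (fun n : ℂ => bc N n k) (n : ℂ)‖ := by
  have h1 : HasDerivAt (fun z : ℂ => ((N : ℂ) - 1 - z) / 2) (-1 / 2) (-zl N n) :=
    ((hasDerivAt_id _).const_sub _).div_const _
  have h2 := (bc_der (N := N) k (((N : ℂ) - 1 - -zl N n) / 2)).differentiableAt.hasDerivAt
  have h3 := HasDerivAt.comp (-zl N n) (h₂ := fun n : ℂ => bc N n k) h2 h1
  have h4 : deriv (fun z : ℂ => bc N ((N - 1 - z) / 2) k) (-zl N n) =
      deriv (fun n : ℂ => bc N n k) (((N : ℂ) - 1 - -zl N n) / 2) * (-1 / 2) := h3.deriv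
  rw [h4, zl_m, norm_mul]
  norm_num
  ring

theorem bq_nonneg' {N n y : ℕ} (hn : n < N) : 0 ≤ bq N n y := by
  rcases le_or_gt y n with h | h
  · rw [bq_val hn h]
    have h2 := D_pos N (n - y) (by omega)
    have h3 := D_pos N y (by omega)
    have h4 := D_pos N n hn
    positivity
  · rw [bq_zero h]

theorem d2 {N n k : ℕ} (hn : n < N) (hk : k ≤ n) :
    1 / 2 * ‖deriv (fun n : ℂ => bc N n k) (n : ℂ)‖ ≤ 4 * N ^ 2 * bq N n k := by
  have h1 := bd_le hn hk
  rw [← bq_eq hn hk] at h1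
  have h2 := bq_nonneg' (N := N) (n := n) (y := k) hn
  have hN1 : (1 : ℝ) ≤ N := by exact_mod_cast (by omega : 1 ≤ N)
  have h3 : (N : ℝ) * bq N n k ≤ N ^ 2 * bq N n k := by
    apply mul_le_mul_of_nonneg_right _ h2
    nlinarith
  nlinarith [mul_nonneg (by linarith : (0 : ℝ) ≤ N) h2]

theorem d3 {N n k : ℕ} (hnk : n < k) (hk : k < N) :
    1 / 2 * ‖deriv (fun n : ℂ => bc N n k) (n : ℂ)‖ * bq N (N - 1 - n : ℕ) (k - n : ℕ) ≤ 1 := by
  have hN : (0 : ℝ) < N := by exact_mod_cast (by omega : 0 < N)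
  have h1 := bd_le0 hk hnk
  have p1 := D_pos N n (by omega)
  have p2 := D_pos N k hk
  have p3 := D_pos N (k - 1 - n) (by omega)
  have p4 := D_pos N (k - n) (by omega)
  have p5 := D_pos N (N - 1 - n) (by omega)
  have p6 := D_pos N (N - 1 - k) (by omega)
  have r1 := D_refl N n (N - 1 - n) (by omega)
  have r2 := D_refl N k (N - 1 - k) (by omega)
  have e1 : bq N (N - 1 - n : ℕ) (k - n : ℕ) = D N k / (D N n * D N (k - n)) := by
    rw [bq_val (by omega) (by omega), show N - 1 - n - (k - n) = N - 1 - k by omega,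
      div_eq_div_iff (by positivity) (by positivity)]
    have : D N (N - 1 - n) * D N n = D N k * D N (N - 1 - k) := by rw [r2, mul_comm, r1]
    linear_combination D N (k - n) * this
  have e2 : D N (k - n) = D N (k - 1 - n) * ss N ((k - n : ℕ) : ℝ) := by
    have h3 := Ds N (k - 1 - n)
    rw [show k - 1 - n + 1 = k - n by omega] at h3
    exact h3
  have h4 := sn_norm_low (N := N) (k - n) (by omega) (by omega)
  have h5 : ‖sn N ((k - n : ℕ) : ℂ)‖ = ss N ((k - n : ℕ) : ℝ) := by
    have h6 := Pool.Agent.Q210.KN.sn_real (N := N) (((k - n : ℕ)) : ℝ)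
    rw [Complex.ofReal_natCast] at h6
    rw [h6, Complex.norm_real, Real.norm_eq_abs]
    exact abs_of_pos (ss_pos (N := N) (m := k - n) (by omega) (by omega))
  rw [h5] at h4
  have hs := ss_pos (N := N) (m := k - n) (by omega) (by omega)
  have hq : 0 ≤ bq N (N - 1 - n : ℕ) (k - n : ℕ) := bq_nonneg' (by omega)
  have hpi := Real.pi_pos
  have hpi4 := Real.pi_lt_four
  calc 1 / 2 * ‖deriv (fun n : ℂ => bc N n k) (n : ℂ)‖ * bq N (N - 1 - n : ℕ) (k - n : ℕ)
      ≤ 1 / 2 * (2 * Real.pi / N * (D N n * D N (k - 1 - n)) / D N k) *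
        bq N (N - 1 - n : ℕ) (k - n : ℕ) := by
        apply mul_le_mul_of_nonneg_right _ hq
        apply mul_le_mul_of_nonneg_left h1 (by norm_num)
    _ = Real.pi / (N * ss N ((k - n : ℕ) : ℝ)) := by
        rw [e1, e2]
        field_simp
    _ ≤ 1 := by
        rw [div_le_one (by positivity)]
        rw [div_le_iff₀ hN] at h4
        linarith

theorem d4 {N n v : ℕ} (hn : n < N) (hv : v ≤ n) : 1 ≤ bq N n v := by
  have p1 := D_pos N n hn
  have p2 := D_pos N v (by omega)
  have p3 := D_pos N (n - v) (by omega)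
  have p4 := D_pos N (N - 1 - n) (by omega)
  rw [bq_val hn hv, one_le_div (by positivity)]
  rcases le_total v (N - 1 - n) with h | h
  · have h1 := DD (N := N) (n - v) v (by omega) (by omega)
    rw [show v + (n - v) = n by omega] at h1
    linarith
  · have h1 := DD (N := N) (n - v) (N - 1 - n) (by omega) (by omega)
    rw [show N - 1 - n + (n - v) = N - 1 - v by omega] at h1
    have r1 := D_refl N n (N - 1 - n) (by omega)
    have r2 := D_refl N v (N - 1 - v) (by omega)
    have h2 : D N v * (D N (N - 1 - n) * D N (n - v)) ≤ D N v * D N (N - 1 - v) :=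
      mul_le_mul_of_nonneg_left h1 p2.le
    rw [r2, ← r1] at h2
    have h3 : D N (N - 1 - n) * (D N (n - v) * D N v) ≤ D N (N - 1 - n) * D N n := by linarith
    exact le_of_mul_le_mul_left h3 p4

theorem d5 {N A m : ℕ} (hAm : A ≤ m) (hmA : m + A ≤ N) (hm : m < N) :
    ∀ v : ℕ, v ≤ A → D N A / D N (A - v) ≤ D N m / D N (m - v) := by
  intro v
  induction v with
  | zero =>
    intro _
    have p1 := D_pos N A (by omega)
    have p2 := D_pos N m hm
    rw [Nat.sub_zero, Nat.sub_zero, div_self p1.ne', div_self p2.ne']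
  | succ v ih =>
    intro hv
    have h1 := ih (by omega)
    have e1 : D N (A - v) = D N (A - (v + 1)) * ss N ((A - v : ℕ) : ℝ) := by
      have h3 := Ds N (A - (v + 1))
      rw [show A - (v + 1) + 1 = A - v by omega] at h3
      exact h3
    have e2 : D N (m - v) = D N (m - (v + 1)) * ss N ((m - v : ℕ) : ℝ) := by
      have h3 := Ds N (m - (v + 1))
      rw [show m - (v + 1) + 1 = m - v by omega] at h3
      exact h3
    have q1 := ss_pos (N := N) (m := A - v) (by omega) (by omega)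
    have q2 := ss_pos (N := N) (m := m - v) (by omega) (by omega)
    have p1 := D_pos N (A - (v + 1)) (by omega)
    have p2 := D_pos N (m - (v + 1)) (by omega)
    have p3 := D_pos N A (by omega)
    have p4 := D_pos N m hm
    have h2 : ss N ((A - v : ℕ) : ℝ) ≤ ss N ((m - v : ℕ) : ℝ) := by
      apply ss_mono (by omega) (Nat.cast_nonneg _)
      · exact_mod_cast (by omega : A - v ≤ m - v)
      · rw [le_sub_iff_add_le]
        exact_mod_cast (by omega : m - v + (A - v) ≤ N)
    have f1 : D N A / D N (A - (v + 1)) = D N A / D N (A - v) * ss N ((A - v : ℕ) : ℝ) := by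
      rw [e1]
      field_simp
    have f2 : D N m / D N (m - (v + 1)) = D N m / D N (m - v) * ss N ((m - v : ℕ) : ℝ) := by
      rw [e2]
      field_simp
    rw [f1, f2]
    have p5 := D_pos N (m - v) (by omega)
    exact mul_le_mul h1 h2 q1.le (by positivity)

theorem task_D1 : Pool.Agent.Q99.HT.S_D1 := by
  intro N hN
  refine ⟨fun n k hn hk => bc_val hn hk, fun n k hn hk => ?_, fun n k hnk hk => ?_,
    fun n v hn hv => d4 hn hv, fun A m v hv hAm hmA hm => ?_⟩
  · rw [der_p, der_m]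
    exact ⟨d2 hn hk, d2 hn hk⟩
  · rw [der_p, der_m]
    exact ⟨d3 hnk hk, d3 hnk hk⟩
  · have h1 := d5 hAm hmA hm v hv
    have p1 := D_pos N v (by omega)
    rw [bq_val (by omega) hv, bq_val hm (by omega), ← div_div, ← div_div]
    exact div_le_div_of_nonneg_right h1 p1.le

end Pool.Agent.Q208.HT
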