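import Pool.Agent.Q208.HT.TW

/-!
# Highly twisted links (helper99), job BB: bound of the sum at the lattice points
-/

set_option autoImplicit false

namespace Pool.Agent.Q208.HT

open Finset
open Pool.Agent.W719.BS (D D_pos D_refl)
open Pool.Agent.Q99.FAL (bq hh)
open Pool.Agent.Q99.KN
open Pool.Agent.Q99.HT
open Pool.Agent.Q208.KN (bc_an Wk_an)

/-- the reversed angles -/
def rv (α : Fin 6 → ℝ) : Fin 6 → ℝ := ![α 3, α 4, α 5, α 0, α 1, α 2]

theorem rv0 (α : Fin 6 → ℝ) : rv α 0 = α 3 := rfl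
theorem rv1 (α : Fin 6 → ℝ) : rv α 1 = α 4 := rfl
theorem rv2 (α : Fin 6 → ℝ) : rv α 2 = α 5 := rfl
theorem rv3 (α : Fin 6 → ℝ) : rv α 3 = α 0 := rfl
theorem rv4 (α : Fin 6 → ℝ) : rv α 4 = α 1 := rfl
theorem rv5 (α : Fin 6 → ℝ) : rv α 5 = α 2 := rfl

theorem rv_Fr {α : Fin 6 → ℝ} (h : Fr α) : Fr (rv α) where
  nn := by
    intro i
    fin_cases i
    · exact h.nn 3
    · exact h.nn 4
    · exact h.nn 5
    · exact h.nn 0
    · exact h.nn 1
    · exact h.nn 2
  s1 := by rw [rv0, rv1, rv2]; exact h.s2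
  s2 := by rw [rv3, rv4, rv5]; exact h.s1
  p2 := by rw [rv2]; exact h.p5
  p5 := by rw [rv5]; exact h.p2
  z14 := by rw [rv1, rv4]; exact h.z14.symm
  cr := by
    rw [rv1, rv2, rv4, rv5]
    intro h1
    have h2 := h.cr (fun h3 => h1 (h.z14.1 h3))
    linarith
  nd := by
    rw [rv0, rv1, rv3]
    rintro ⟨h1, h2, h3⟩
    exact h.nd ⟨h3, h.z14.2 h2, h1⟩

theorem rv_Acu {α : Fin 6 → ℝ} (h : Acu α) : Acu (rv α) where
  o12 := by rw [rv1, rv2]; exact h.o45
  o45 := by rw [rv4, rv5]; exact h.o12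
  q0 := by rw [rv0]; exact h.q3
  q3 := by rw [rv3]; exact h.q0

theorem rv_Cmp {α : Fin 6 → ℝ} (hF : Fr α) {A b C : ℕ} (h : Cmp α A b C) : Cmp (rv α) C b A := by
  unfold Cmp at *
  rw [rv0, rv1, rv3]
  exact ⟨h.2.2, fun h1 => h.2.1 (hF.z14.2 h1), h.1⟩

theorem rv_eX {α : Fin 6 → ℝ} (hF : Fr α) (N A b C : ℕ) :
    eX N (rv α) C b A = eX N α A b C := by
  have e0 : ml (rv α) 0 = ml α 2 := rfl
  have e2 : ml (rv α) 2 = ml α 0 := rfl
  have e1 : ml (rv α) 1 = ml α 1 := by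
    have f1 : ml (rv α) 1 = Real.log (Real.tan (Real.pi * α 5) / Real.tan (Real.pi * α 4)) := rfl
    have f2 : ml α 1 = Real.log (Real.tan (Real.pi * α 2) / Real.tan (Real.pi * α 1)) := rfl
    rw [f1, f2]
    by_cases h1 : α 1 = 0
    · have h4 := hF.z14.1 h1
      rw [h1, h4]
      simp
    · have h4 : α 4 ≠ 0 := fun h => h1 (hF.z14.2 h)
      have hc := hF.cr h1
      have hpi := Real.pi_pos
      have n1 : 0 < α 1 := lt_of_le_of_ne (hF.nn 1) (Ne.symm h1)
      have n4 : 0 < α 4 := lt_of_le_of_ne (hF.nn 4) (Ne.symm h4)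
      have s1 := hF.s1
      have s2 := hF.s2
      have n0 := hF.nn 0
      have n3 := hF.nn 3
      have p2 := hF.p2
      have p5 := hF.p5
      have t1 : 0 < Real.tan (Real.pi * α 1) :=
        Real.tan_pos_of_pos_of_lt_pi_div_two (by positivity) (by nlinarith)
      have t4 : 0 < Real.tan (Real.pi * α 4) :=
        Real.tan_pos_of_pos_of_lt_pi_div_two (by positivity) (by nlinarith)
      congr 1
      rw [div_eq_div_iff t4.ne' t1.ne']
      linarith
  have e3 : v0 (rv α) = v0 α := by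
    unfold v0
    rw [Fin.sum_univ_six, Fin.sum_univ_six, rv0, rv1, rv2, rv3, rv4, rv5]
    ring
  unfold eX
  rw [e0, e1, e2, e3, rv0, rv1, rv3, rv4]
  ring

theorem rv_dX (α : Fin 6 → ℝ) (N A b C k : ℕ) : dX N (rv α) C b A k = dX N α A b C k := by
  unfold dX
  rw [rv0, rv1, rv3, rv4]
  ring

theorem Tm_an (N A b C j : ℕ) : Differentiable ℂ (fun z => Tm N z A b C j) := by
  unfold Tm
  have h1 : Differentiable ℂ (fun z : ℂ => ((N : ℂ) - 1 + z) / 2) := by fun_prop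
  have h2 : Differentiable ℂ (fun z : ℂ => ((N : ℂ) - 1 - z) / 2) := by fun_prop
  exact (((bc_an N A h2).mul (bc_an N C h1)).mul ((bc_an N j h1).mul (bc_an N (b - j) h2))).mul
    ((bc_an N (A + j) h1).mul (bc_an N (C + (b - j)) h2))

theorem W_bound {N A b C k : ℕ} {M : ℝ} (hs : A + b + C < N)
    (h : ∀ j ≤ b, ‖Tm N (zl N k) A b C j‖ + ‖deriv (fun z => Tm N z A b C j) (zl N k)‖ ≤ M)
    (hM : 0 ≤ M) :
    ‖Wk N (zl N k) A b C‖ + ‖deriv (fun z => Wk N z A b C) (zl N k)‖ ≤ N * M := by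
  have e1 : Wk N (zl N k) A b C = ∑ j ∈ range (b + 1), Tm N (zl N k) A b C j := rfl
  have e2 : deriv (fun z => Wk N z A b C) (zl N k) =
      ∑ j ∈ range (b + 1), deriv (fun z => Tm N z A b C j) (zl N k) := by
    have : (fun z => Wk N z A b C) = fun z => ∑ j ∈ range (b + 1), Tm N z A b C j := rfl
    rw [this, deriv_fun_sum fun j _ => (Tm_an N A b C j).differentiableAt]
  rw [e1, e2]
  have h1 := norm_sum_le (range (b + 1)) (fun j => Tm N (zl N k) A b C j)
  have h2 := norm_sum_le (range (b + 1)) (fun j => deriv (fun z => Tm N z A b C j) (zl N k))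
  have h3 : ∑ j ∈ range (b + 1), (‖Tm N (zl N k) A b C j‖ +
      ‖deriv (fun z => Tm N z A b C j) (zl N k)‖) ≤ ∑ _j ∈ range (b + 1), M :=
    sum_le_sum fun j hj => h j (by have := mem_range.1 hj; omega)
  rw [sum_add_distrib, sum_const, card_range, nsmul_eq_mul] at h3
  have h4 : ((b + 1 : ℕ) : ℝ) * M ≤ N * M :=
    mul_le_mul_of_nonneg_right (by exact_mod_cast (by omega : b + 1 ≤ N)) hM
  linarith

/-- values and derivatives of one term -/
theorem tm_all {N A b C j k m : ℕ} (hs : A + b + C < N) (hj : j ≤ b) (hkm : k + m + 1 = N) :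
    ‖Tm N (zl N k) A b C j‖ = bq N m A * bq N k C * (bq N k j * bq N m (b - j : ℕ)) *
      (bq N k (A + j : ℕ) * bq N m (C + (b - j) : ℕ)) ∧
    (m < A → ‖deriv (fun z => Tm N z A b C j) (zl N k)‖ ≤
      bq N k C * (bq N k j * bq N m (b - j : ℕ)) *
        (bq N k (A + j : ℕ) * bq N m (C + (b - j) : ℕ))) ∧
    (k < C → ‖deriv (fun z => Tm N z A b C j) (zl N k)‖ ≤
      bq N m A * (bq N m (b - j : ℕ) * bq N k j) *
        (bq N m (C + (b - j) : ℕ) * bq N k (A + j : ℕ))) := by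
  have hk : k < N := by omega
  have hmN : m < N := by omega
  have hzl := zl_neg hkm
  have P3 : ∀ x : ℕ, k < x → x < N →
      ‖deriv (fun z : ℂ => bc N ((N - 1 + z) / 2) x) (zl N k)‖ ≤ 1 := fun x hx hxN => by
    have h1 := d3 (N := N) hx hxN
    rw [show N - 1 - k = m by omega] at h1
    rw [der_p]
    have h2 : 1 ≤ bq N m (x - k : ℕ) := d4 hmN (by omega)
    have h3 : 0 ≤ 1 / 2 * ‖deriv (fun n : ℂ => bc N n x) (k : ℂ)‖ := by positivity
    exact (le_mul_of_one_le_right h3 h2).trans h1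
  have M3 : ∀ x : ℕ, m < x → x < N →
      ‖deriv (fun z : ℂ => bc N ((N - 1 - z) / 2) x) (zl N k)‖ ≤ 1 := fun x hx hxN => by
    have h1 := d3 (N := N) hx hxN
    rw [show N - 1 - m = k by omega] at h1
    rw [hzl, der_m]
    have h2 : 1 ≤ bq N k (x - m : ℕ) := d4 hk (by omega)
    have h3 : 0 ≤ 1 / 2 * ‖deriv (fun n : ℂ => bc N n x) (m : ℂ)‖ := by positivity
    exact (le_mul_of_one_le_right h3 h2).trans h1
  have g1 : Differentiable ℂ (fun z : ℂ => ((N : ℂ) - 1 + z) / 2) := by fun_prop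
  have g2 : Differentiable ℂ (fun z : ℂ => ((N : ℂ) - 1 - z) / 2) := by fun_prop
  have hder := der6 (z := zl N k) (bc_an N A g2).differentiableAt (bc_an N C g1).differentiableAt
    (bc_an N j g1).differentiableAt (bc_an N (b - j) g2).differentiableAt
    (bc_an N (A + j) g1).differentiableAt (bc_an N (C + (b - j)) g2).differentiableAt
  have hval : ‖Tm N (zl N k) A b C j‖ = bq N m A * bq N k C * (bq N k j * bq N m (b - j : ℕ)) *
      (bq N k (A + j : ℕ) * bq N m (C + (b - j) : ℕ)) := by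
    unfold Tm
    rw [zl_p, zl_m' hkm]
    simp only [norm_mul]
    rw [bc_norm hmN (by omega : A < N), bc_norm hk (by omega : C < N), bc_norm hk (by omega : j < N),
      bc_norm hmN (by omega : b - j < N), bc_norm hk (by omega : A + j < N),
      bc_norm hmN (by omega : C + (b - j) < N)]
  have hTm : (fun z => Tm N z A b C j) = fun z : ℂ => bc N ((N - 1 - z) / 2) A *
      bc N ((N - 1 + z) / 2) C * (bc N ((N - 1 + z) / 2) j * bc N ((N - 1 - z) / 2) (b - j)) *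
      (bc N ((N - 1 + z) / 2) (A + j) * bc N ((N - 1 - z) / 2) (C + (b - j))) := rfl
  rw [← hTm, zl_p, zl_m' hkm, bc_norm hmN (by omega : A < N), bc_norm hk (by omega : C < N),
    bc_norm hk (by omega : j < N), bc_norm hmN (by omega : b - j < N),
    bc_norm hk (by omega : A + j < N), bc_norm hmN (by omega : C + (b - j) < N)] at hder
  obtain ⟨a1, ha1⟩ : ∃ a, a = bq N m A := ⟨_, rfl⟩
  obtain ⟨a2, ha2⟩ : ∃ a, a = bq N k C := ⟨_, rfl⟩
  obtain ⟨a3, ha3⟩ : ∃ a, a = bq N k j := ⟨_, rfl⟩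
  obtain ⟨a4, ha4⟩ : ∃ a, a = bq N m (b - j : ℕ) := ⟨_, rfl⟩
  obtain ⟨a5, ha5⟩ : ∃ a, a = bq N k (A + j : ℕ) := ⟨_, rfl⟩
  obtain ⟨a6, ha6⟩ : ∃ a, a = bq N m (C + (b - j) : ℕ) := ⟨_, rfl⟩
  have q1 : 0 ≤ a1 := by rw [ha1]; exact bq_nonneg' hmN
  have q2 : 0 ≤ a2 := by rw [ha2]; exact bq_nonneg' hk
  have q3 : 0 ≤ a3 := by rw [ha3]; exact bq_nonneg' hk
  have q4 : 0 ≤ a4 := by rw [ha4]; exact bq_nonneg' hmN
  have q5 : 0 ≤ a5 := by rw [ha5]; exact bq_nonneg' hk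
  have q6 : 0 ≤ a6 := by rw [ha6]; exact bq_nonneg' hmN
  refine ⟨hval, fun hA => ?_, fun hC => ?_⟩
  · have z1 : a1 = 0 := by rw [ha1]; exact bq_zero hA
    rw [← ha1, ← ha2, ← ha3, ← ha4, ← ha5, ← ha6, z1] at hder
    simp only [zero_mul, add_zero] at hder
    have h1 := M3 A hA (by omega)
    rw [← ha2, ← ha3, ← ha4, ← ha5, ← ha6]
    refine hder.trans ?_
    calc ‖deriv (fun z : ℂ => bc N ((N - 1 - z) / 2) A) (zl N k)‖ * a2 * a3 * a4 * a5 * a6
        ≤ 1 * a2 * a3 * a4 * a5 * a6 := by gcongr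
      _ = _ := by ring
  · have z2 : a2 = 0 := by rw [ha2]; exact bq_zero hC
    rw [← ha1, ← ha2, ← ha3, ← ha4, ← ha5, ← ha6, z2] at hder
    simp only [mul_zero, zero_mul, add_zero, zero_add] at hder
    have h1 := P3 C hC (by omega)
    rw [← ha1, ← ha3, ← ha4, ← ha5, ← ha6]
    refine hder.trans ?_
    calc a1 * ‖deriv (fun z : ℂ => bc N ((N - 1 + z) / 2) C) (zl N k)‖ * a3 * a4 * a5 * a6
        ≤ a1 * 1 * a3 * a4 * a5 * a6 := by gcongr
      _ = _ := by ring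

theorem ex_le {C' E κ κi d s : ℝ} {N : ℕ} (hN : 0 < N) (hκ0 : 0 ≤ κ) (hκ : κ ≤ κi) (hd : 0 ≤ d)
    (hs : 0 ≤ s) : C' * Real.exp (E - κi * (d + s) / N) ≤ |C'| * Real.exp (E - κ * d / N) := by
  have hN0 : (0 : ℝ) < N := by exact_mod_cast hN
  have h1 : κ * d / N ≤ κi * (d + s) / N := by
    apply div_le_div_of_nonneg_right _ hN0.le
    have : κ * d ≤ κi * d := mul_le_mul_of_nonneg_right hκ hd
    have : 0 ≤ κi * s := mul_nonneg (hκ0.trans hκ) hs
    linarith
  calc C' * Real.exp (E - κi * (d + s) / N) ≤ |C'| * Real.exp (E - κi * (d + s) / N) :=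
        mul_le_mul_of_nonneg_right (le_abs_self _) (Real.exp_pos _).le
    _ ≤ |C'| * Real.exp (E - κ * d / N) := by
        apply mul_le_mul_of_nonneg_left _ (abs_nonneg _)
        exact Real.exp_le_exp.2 (by linarith)

theorem dX_diff (α : Fin 6 → ℝ) {N A b C k m : ℕ} (hkm : k + m + 1 = N) :
    dX N α A b C k ≤ dX N α A b C m + N := by
  have r : (k : ℝ) + m + 1 = N := by exact_mod_cast hkm
  have k0 : (0 : ℝ) ≤ k := Nat.cast_nonneg k
  have m0 : (0 : ℝ) ≤ m := Nat.cast_nonneg m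
  unfold dX
  have h : ((k : ℝ) - N / 2) ^ 2 - ((m : ℝ) - N / 2) ^ 2 = m - k := by
    have e1 : (k : ℝ) - N / 2 = (k - m - 1) / 2 := by linarith
    have e2 : (m : ℝ) - N / 2 = (m - k - 1) / 2 := by linarith
    rw [e1, e2]
    ring
  linarith

theorem F_even (hEV : S_EV) (hPF : S_PF) (hWR : S_WR) {N A b C k m : ℕ} (hs : A + b + C < N)
    (hkm : k + m + 1 = N) :
    ‖Wk N (zl N k) A b C‖ + ‖deriv (fun z => Wk N z A b C) (zl N k)‖ =
    ‖Wk N (zl N m) A b C‖ + ‖deriv (fun z => Wk N z A b C) (zl N m)‖ := by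
  have h1 : ∀ z, Wk N (-z) A b C = Wk N z A b C := fun z =>
    (hEV hPF hWR N (by omega) z A b C hs).1
  have h2 : (fun z => Wk N (-z) A b C) = fun z => Wk N z A b C := funext h1
  have h3 := deriv_comp_neg (fun z => Wk N z A b C) (zl N m)
  rw [h2] at h3
  rw [zl_neg hkm, h1, h3, norm_neg]

theorem task_BB : S_BB := by
  intro hEV hPF hWR hD1 hTG hTG5 hTW hT1 α hFr hAcu
  obtain ⟨C1, κ1, hκ1, h1⟩ := hTW hD1 hTG hT1 α hFr hAcu
  obtain ⟨C2, κ2, hκ2, h2⟩ := hTG5 hT1 α hFr hAcu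
  obtain ⟨C3, κ3, hκ3, h3⟩ := hTG5 hT1 (rv α) (rv_Fr hFr) (rv_Acu hAcu)
  obtain ⟨κ, hκ⟩ : ∃ κ, κ = min κ1 (min κ2 κ3) := ⟨_, rfl⟩
  have k0 : 0 < κ := by rw [hκ]; exact lt_min hκ1 (lt_min hκ2 hκ3)
  have k1 : κ ≤ κ1 := by rw [hκ]; exact min_le_left _ _
  have k2 : κ ≤ κ2 := by rw [hκ]; exact (min_le_right _ _).trans (min_le_left _ _)
  have k3 : κ ≤ κ3 := by rw [hκ]; exact (min_le_right _ _).trans (min_le_right _ _)
  clear hκ
  -- the three basic bounds
  have B1 : ∀ N A b C k : ℕ, A + b + C < N → Cmp α A b C → k < N → A ≤ k → A + k < N → C ≤ k →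
      C + k < N → ‖Wk N (zl N k) A b C‖ + ‖deriv (fun z => Wk N z A b C) (zl N k)‖ ≤
        N * (|C1| * N ^ 2 * Real.exp (eX N α A b C - κ * dX N α A b C k / N)) := by
    intro N A b C k hs hC hk g1 g2 g3 g4
    apply W_bound hs _ (by positivity)
    intro j hj
    refine (h1 N A b C j k hs hC hj hk g1 g2 g3 g4).trans ?_
    have := ex_le (C' := C1) (E := eX N α A b C) (N := N) (by omega) k0.le k1
      (dX_nonneg N α A b C k) (sq_nonneg ((j : ℝ) - N * α 1))
    calc C1 * N ^ 2 * Real.exp (eX N α A b C - κ1 * (dX N α A b C k + ((j : ℝ) - N * α 1) ^ 2) / N)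
        = N ^ 2 * (C1 * Real.exp (eX N α A b C - κ1 * (dX N α A b C k +
          ((j : ℝ) - N * α 1) ^ 2) / N)) := by ring
      _ ≤ N ^ 2 * (|C1| * Real.exp (eX N α A b C - κ * dX N α A b C k / N)) :=
          mul_le_mul_of_nonneg_left this (by positivity)
      _ = _ := by ring
  have B2 : ∀ N A b C k m : ℕ, A + b + C < N → Cmp α A b C → k + m + 1 = N → m < A →
      ‖Wk N (zl N k) A b C‖ + ‖deriv (fun z => Wk N z A b C) (zl N k)‖ ≤
        N * (|C2| * Real.exp (eX N α A b C - κ * dX N α A b C k / N)) := by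
    intro N A b C k m hs hC hkm hmA
    apply W_bound hs _ (by positivity)
    intro j hj
    obtain ⟨t1, t2, _⟩ := tm_all hs hj hkm
    have t3 := h2 N k m A b C j hkm hj hs hC hmA
    have t4 : bq N m A = 0 := bq_zero hmA
    rw [t1, t4, zero_mul, zero_mul, zero_mul, zero_add]
    refine (t2 hmA).trans (t3.trans ?_)
    exact ex_le (by omega) k0.le k2 (dX_nonneg N α A b C k) (sq_nonneg _)
  have B3 : ∀ N A b C k m : ℕ, A + b + C < N → Cmp α A b C → k + m + 1 = N → k < C →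
      ‖Wk N (zl N k) A b C‖ + ‖deriv (fun z => Wk N z A b C) (zl N k)‖ ≤
        N * (|C3| * Real.exp (eX N α A b C - κ * dX N α A b C m / N)) := by
    intro N A b C k m hs hC hkm hkC
    apply W_bound hs _ (by positivity)
    intro j hj
    obtain ⟨t1, _, t2⟩ := tm_all hs hj hkm
    have t3 := h3 N m k C b A (b - j) (by omega) (by omega) (by omega) (rv_Cmp hFr hC) hkC
    rw [show b - (b - j) = j by omega, rv_eX hFr, rv_dX] at t3
    have t4 : bq N k C = 0 := bq_zero hkC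
    rw [t1, t4, mul_zero, zero_mul, zero_mul, zero_add]
    refine (t2 hkC).trans (t3.trans ?_)
    exact ex_le (by omega) k0.le k3 (dX_nonneg N α A b C m) (sq_nonneg _)
  refine ⟨(|C1| + |C2| + |C3|) * Real.exp κ, κ, k0, fun N A b C k hs hC hk => ?_⟩
  obtain ⟨m, hm⟩ : ∃ m, m = N - 1 - k := ⟨_, rfl⟩
  have hkm : k + m + 1 = N := by omega
  have hN1 : (1 : ℝ) ≤ N := by exact_mod_cast (by omega : 1 ≤ N)
  have hN0 : (0 : ℝ) < N := by linarith
  have he : 1 ≤ Real.exp κ := Real.one_le_exp k0.le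
  -- comparison of the two exponentials
  have hcmp : Real.exp (eX N α A b C - κ * dX N α A b C m / N) ≤
      Real.exp κ * Real.exp (eX N α A b C - κ * dX N α A b C k / N) := by
    rw [← Real.exp_add]
    apply Real.exp_le_exp.2
    have h4 := dX_diff α (A := A) (b := b) (C := C) hkm
    have h5 : κ * dX N α A b C k / N ≤ κ * (dX N α A b C m + N) / N := by
      apply div_le_div_of_nonneg_right _ hN0.le
      exact mul_le_mul_of_nonneg_left h4 k0.le
    have h6 : κ * (dX N α A b C m + N) / N = κ * dX N α A b C m / N + κ := by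
      field_simp
    linarith
  obtain ⟨X, hX⟩ : ∃ X, X = Real.exp (eX N α A b C - κ * dX N α A b C k / N) := ⟨_, rfl⟩
  obtain ⟨Y, hY⟩ : ∃ Y, Y = Real.exp (eX N α A b C - κ * dX N α A b C m / N) := ⟨_, rfl⟩
  obtain ⟨e, hee⟩ : ∃ e, e = Real.exp κ := ⟨_, rfl⟩
  have hX0 : 0 < X := by rw [hX]; exact Real.exp_pos _
  rw [← hX, ← hY, ← hee] at hcmp
  rw [← hee] at he
  rw [← hX, ← hee]
  have hN3 : (N : ℝ) ≤ N ^ 3 := by
    calc (N : ℝ) = N ^ 1 := (pow_one _).symm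
      _ ≤ N ^ 3 := pow_le_pow_right₀ hN1 (by norm_num)
  -- finishing lemma
  have fin : ∀ {Q c Z : ℝ}, 0 ≤ c → c ≤ |C1| + |C2| + |C3| → Z ≤ e * X →
      Q ≤ N * (c * Z) → Q ≤ (|C1| + |C2| + |C3|) * e * N ^ 3 * X := by
    intro Q c Z hc0 hc hZ hQ
    have s1 : c * Z ≤ (|C1| + |C2| + |C3|) * (e * X) := by
      calc c * Z ≤ c * (e * X) := mul_le_mul_of_nonneg_left hZ hc0
        _ ≤ _ := mul_le_mul_of_nonneg_right hc (by positivity)
    calc Q ≤ N * (c * Z) := hQ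
      _ ≤ N * ((|C1| + |C2| + |C3|) * (e * X)) := mul_le_mul_of_nonneg_left s1 hN0.le
      _ ≤ N ^ 3 * ((|C1| + |C2| + |C3|) * (e * X)) :=
          mul_le_mul_of_nonneg_right hN3 (by positivity)
      _ = _ := by ring
  have hXe : X ≤ e * X := le_mul_of_one_le_left hX0.le he
  by_cases c1 : m < A
  · have h := B2 N A b C k m hs hC hkm c1
    rw [← hX] at h
    exact fin (abs_nonneg C2) (by linarith [abs_nonneg C1, abs_nonneg C3]) hXe h
  by_cases c2 : k < C
  · have h := B3 N A b C k m hs hC hkm c2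
    rw [← hY] at h
    exact fin (abs_nonneg C3) (by linarith [abs_nonneg C1, abs_nonneg C2]) hcmp h
  by_cases c3 : k < A
  · have h := B2 N A b C m k hs hC (by omega) c3
    rw [← F_even hEV hPF hWR hs hkm, ← hY] at h
    exact fin (abs_nonneg C2) (by linarith [abs_nonneg C1, abs_nonneg C3]) hcmp h
  by_cases c4 : m < C
  · have h := B3 N A b C m k hs hC (by omega) c4
    rw [← F_even hEV hPF hWR hs hkm, ← hX] at h
    exact fin (abs_nonneg C3) (by linarith [abs_nonneg C1, abs_nonneg C2]) hXe h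
  have h := B1 N A b C k hs hC hk (by omega) (by omega) (by omega) (by omega)
  rw [← hX] at h
  refine h.trans ?_
  have s1 : |C1| * X ≤ (|C1| + |C2| + |C3|) * (e * X) := by
    calc |C1| * X ≤ |C1| * (e * X) := mul_le_mul_of_nonneg_left hXe (abs_nonneg _)
      _ ≤ _ := mul_le_mul_of_nonneg_right (by linarith [abs_nonneg C2, abs_nonneg C3]) (by positivity)
  calc N * (|C1| * N ^ 2 * X) = N ^ 3 * (|C1| * X) := by ring
    _ ≤ N ^ 3 * ((|C1| + |C2| + |C3|) * (e * X)) := mul_le_mul_of_nonneg_left s1 (by positivity)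
    _ = _ := by ring

end Pool.Agent.Q208.HT
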