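import Mathlib

/-!
# Several binary numbers written into the digits of one number
-/

set_option autoImplicit false

namespace Pool.Agent.Q208.HT

open Finset

/-- the binary digits of `Z` read in base `β` -/
def phi (β Z : ℕ) : ℕ := Nat.ofDigits β (Nat.digits 2 Z)

theorem phi_rec (β Z : ℕ) : phi β Z = Z % 2 + β * phi β (Z / 2) := by
  unfold phi
  rcases Nat.eq_zero_or_pos Z with rfl | hZ
  · simp
  · rw [Nat.digits_def' (by norm_num) hZ, Nat.ofDigits_cons]

theorem phi_zero (β : ℕ) : phi β 0 = 0 := by simp [phi]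

/-- the numbers `Z 0, …, Z (C - 1)` written into one number, in base `β`; digits in base `3` -/
def tot (β C : ℕ) (Z : ℕ → ℕ) : ℕ := ∑ c ∈ range C, 3 ^ c * phi β (Z c)

theorem tot_rec (β C : ℕ) (Z : ℕ → ℕ) :
    tot β C Z = ∑ c ∈ range C, 3 ^ c * (Z c % 2) + β * tot β C (fun c => Z c / 2) := by
  unfold tot
  rw [mul_sum, ← sum_add_distrib]
  refine sum_congr rfl fun c _ => ?_
  rw [phi_rec]
  ring

theorem tot_congr {β C : ℕ} {Z W : ℕ → ℕ} (h : ∀ c < C, Z c = W c) : tot β C Z = tot β C W :=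
  sum_congr rfl fun c hc => by rw [h c (mem_range.1 hc)]

/-- digits at most `2` give a number less than `3 ^ C` -/
theorem low_lt (C : ℕ) (d : ℕ → ℕ) (hd : ∀ c < C, d c ≤ 2) : ∑ c ∈ range C, 3 ^ c * d c < 3 ^ C := by
  induction C with
  | zero => simp
  | succ C ih =>
    rw [sum_range_succ, pow_succ]
    have h1 := ih fun c hc => hd c (by omega)
    have h2 := hd C (by omega)
    have h3 : 3 ^ C * d C ≤ 3 ^ C * 2 := Nat.mul_le_mul_left _ h2
    omega

/-- digits at most `2` are determined -/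
theorem low_inj (C : ℕ) (d e : ℕ → ℕ) (hd : ∀ c < C, d c ≤ 2) (he : ∀ c < C, e c ≤ 2)
    (h : ∑ c ∈ range C, 3 ^ c * d c = ∑ c ∈ range C, 3 ^ c * e c) : ∀ c < C, d c = e c := by
  induction C with
  | zero => intro c hc; omega
  | succ C ih =>
    rw [sum_range_succ, sum_range_succ] at h
    have h1 := low_lt C d fun c hc => hd c (by omega)
    have h2 := low_lt C e fun c hc => he c (by omega)
    have h3 : d C = e C := by
      have e1 : (∑ c ∈ range C, 3 ^ c * d c + 3 ^ C * d C) / 3 ^ C = d C := by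
        rw [Nat.add_mul_div_left _ _ (by positivity), Nat.div_eq_of_lt h1, zero_add]
      have e2 : (∑ c ∈ range C, 3 ^ c * e c + 3 ^ C * e C) / 3 ^ C = e C := by
        rw [Nat.add_mul_div_left _ _ (by positivity), Nat.div_eq_of_lt h2, zero_add]
      rw [← e1, ← e2, h]
    rw [h3] at h
    have h4 := ih (fun c hc => hd c (by omega)) (fun c hc => he c (by omega)) (by omega)
    intro c hc
    rcases Nat.lt_succ_iff_lt_or_eq.1 hc with h5 | rfl
    · exact h4 c h5
    · exact h3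

theorem tot_div {C : ℕ} {β : ℕ} (hβ : 3 ^ C ≤ β) (Z : ℕ → ℕ) (j : ℕ) :
    tot β C Z / β ^ j = tot β C (fun c => Z c / 2 ^ j) := by
  have hβ0 : 0 < β := lt_of_lt_of_le (by positivity) hβ
  induction j generalizing Z with
  | zero => simp
  | succ j ih =>
    rw [pow_succ', ← Nat.div_div_eq_div_mul]
    have h1 : tot β C Z / β = tot β C (fun c => Z c / 2) := by
      rw [tot_rec, Nat.add_mul_div_left _ _ hβ0, Nat.div_eq_of_lt, zero_add]
      refine lt_of_lt_of_le (low_lt C _ fun c _ => ?_) hβ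
      have := Nat.mod_lt (Z c) (show 0 < 2 by norm_num)
      omega
    rw [h1, ih]
    refine tot_congr fun c _ => ?_
    rw [Nat.div_div_eq_div_mul, pow_succ']

/-- the sum of two codes determines the sums of the entries -/
theorem tot_add {C : ℕ} {β : ℕ} (hβ : 3 ^ C ≤ β) (N : ℕ) : ∀ Z Z' W W' : ℕ → ℕ,
    (∀ c < C, Z c < 2 ^ N) → (∀ c < C, Z' c < 2 ^ N) → (∀ c < C, W c < 2 ^ N) →
    (∀ c < C, W' c < 2 ^ N) → tot β C Z + tot β C Z' = tot β C W + tot β C W' →
    ∀ c < C, Z c + Z' c = W c + W' c := by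
  have hβ0 : 0 < β := lt_of_lt_of_le (by positivity) hβ
  induction N with
  | zero =>
    intro Z Z' W W' h1 h2 h3 h4 _ c hc
    have := h1 c hc
    have := h2 c hc
    have := h3 c hc
    have := h4 c hc
    omega
  | succ N ih =>
    intro Z Z' W W' h1 h2 h3 h4 h
    have key : ∀ Z Z' : ℕ → ℕ, tot β C Z + tot β C Z' =
        ∑ c ∈ range C, 3 ^ c * (Z c % 2 + Z' c % 2) +
          β * (tot β C (fun c => Z c / 2) + tot β C (fun c => Z' c / 2)) := by
      intro Z Z'
      rw [tot_rec β C Z, tot_rec β C Z']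
      have : ∑ c ∈ range C, 3 ^ c * (Z c % 2 + Z' c % 2) =
          ∑ c ∈ range C, 3 ^ c * (Z c % 2) + ∑ c ∈ range C, 3 ^ c * (Z' c % 2) := by
        rw [← sum_add_distrib]
        exact sum_congr rfl fun c _ => by ring
      rw [this]
      ring
    have hb : ∀ Z Z' : ℕ → ℕ, ∀ c < C, Z c % 2 + Z' c % 2 ≤ 2 := by
      intro Z Z' c _
      have := Nat.mod_lt (Z c) (show 0 < 2 by norm_num)
      have := Nat.mod_lt (Z' c) (show 0 < 2 by norm_num)
      omega
    rw [key Z Z', key W W'] at h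
    have l1 := lt_of_lt_of_le (low_lt C _ (hb Z Z')) hβ
    have l2 := lt_of_lt_of_le (low_lt C _ (hb W W')) hβ
    have e1 := congrArg (fun t => t % β) h
    simp only [Nat.add_mul_mod_self_left] at e1
    rw [Nat.mod_eq_of_lt l1, Nat.mod_eq_of_lt l2] at e1
    have e2 := congrArg (fun t => t / β) h
    rw [Nat.add_mul_div_left _ _ hβ0, Nat.add_mul_div_left _ _ hβ0, Nat.div_eq_of_lt l1,
      Nat.div_eq_of_lt l2, zero_add, zero_add] at e2
    have hh : ∀ Z : ℕ → ℕ, (∀ c < C, Z c < 2 ^ (N + 1)) → ∀ c < C, Z c / 2 < 2 ^ N := by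
      intro Z hZ c hc
      have := hZ c hc
      rw [pow_succ] at this
      omega
    have h5 := ih _ _ _ _ (hh Z h1) (hh Z' h2) (hh W h3) (hh W' h4) e2
    have h6 := low_inj C _ _ (hb Z Z') (hb W W') e1
    intro c hc
    have h7 : Z c / 2 + Z' c / 2 = W c / 2 + W' c / 2 := h5 c hc
    have h8 : Z c % 2 + Z' c % 2 = W c % 2 + W' c % 2 := h6 c hc
    omega

theorem tot_inj {C : ℕ} {β : ℕ} (hβ : 3 ^ C ≤ β) {Z W : ℕ → ℕ} (h : tot β C Z = tot β C W) :
    ∀ c < C, Z c = W c := by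
  intro c hc
  obtain ⟨N, hN⟩ : ∃ N, ∀ c < C, Z c < 2 ^ N ∧ W c < 2 ^ N := by
    refine ⟨∑ c ∈ range C, (Z c + W c), fun c hc => ?_⟩
    have h1 : Z c + W c ≤ ∑ c ∈ range C, (Z c + W c) :=
      single_le_sum (f := fun c => Z c + W c) (fun _ _ => Nat.zero_le _) (mem_range.2 hc)
    have h2 := (∑ c ∈ range C, (Z c + W c)).lt_two_pow_self
    omega
  have h0 : tot β C (fun _ => 0) = 0 := by simp [tot, phi_zero]
  have := tot_add hβ N Z (fun _ => 0) W (fun _ => 0) (fun c hc => (hN c hc).1)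
    (fun _ _ => by positivity) (fun c hc => (hN c hc).2) (fun _ _ => by positivity)
    (by rw [h0, add_zero, add_zero, h]) c hc
  simpa using this

/-- the size of a code -/
theorem tot_size {C : ℕ} {β : ℕ} (hβ : 3 ^ C ≤ β) (hC : 0 < C) {Z : ℕ → ℕ} {n : ℕ}
    (h0 : Z 0 = 2 ^ n) (h : ∀ c < C, Z c < 2 ^ (n + 1)) :
    β ^ n ≤ tot β C Z ∧ tot β C Z < β ^ (n + 1) := by
  have hβ0 : 0 < β := lt_of_lt_of_le (by positivity) hβ
  constructor
  · by_contra hcon
    have h1 := Nat.div_eq_of_lt (not_le.1 hcon)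
    rw [tot_div hβ] at h1
    have h2 := tot_inj hβ (W := fun _ => 0) (h1.trans (by simp [tot, phi_zero])) 0 hC
    simp [h0] at h2
  · have h1 : tot β C Z / β ^ (n + 1) = 0 := by
      rw [tot_div hβ]
      have : tot β C (fun c => Z c / 2 ^ (n + 1)) = tot β C (fun _ => 0) :=
        tot_congr fun c hc => Nat.div_eq_of_lt (h c hc)
      rw [this]
      simp [tot, phi_zero]
    exact (Nat.div_eq_zero_iff_lt (by positivity)).1 h1

/-- sum and sum of squares determine a pair -/
theorem pair_sq {a b c d : ℕ} (h1 : a + b = c + d) (h2 : a ^ 2 + b ^ 2 = c ^ 2 + d ^ 2) :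
    a = c ∨ a = d := by
  have h1' : (a : ℤ) + b = c + d := by exact_mod_cast h1
  have h2' : (a : ℤ) ^ 2 + b ^ 2 = c ^ 2 + d ^ 2 := by exact_mod_cast h2
  have h3 : ((a : ℤ) - c) * (a - d) = 0 := by
    have : (b : ℤ) = c + d - a := by linarith
    rw [this] at h2'
    nlinarith
  rcases mul_eq_zero.1 h3 with h | h
  · left; omega
  · right; omega

theorem pair_pow {a b c d : ℕ} (h : 2 ^ a + 2 ^ b = 2 ^ c + 2 ^ d) :
    (a = c ∧ b = d) ∨ (a = d ∧ b = c) := by
  have key : ∀ a b c d : ℕ, b ≤ a → d ≤ c → 2 ^ a + 2 ^ b = 2 ^ c + 2 ^ d → a = c ∧ b = d := by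
    intro a b c d hab hcd h
    have l1 : 2 ^ b ≤ 2 ^ a := Nat.pow_le_pow_right (by norm_num) hab
    have l2 : 2 ^ d ≤ 2 ^ c := Nat.pow_le_pow_right (by norm_num) hcd
    have p1 : 0 < 2 ^ b := by positivity
    have p2 : 0 < 2 ^ d := by positivity
    have e : a = c := by
      rcases lt_trichotomy a c with h1 | h1 | h1
      · exfalso
        have : 2 ^ (a + 1) ≤ 2 ^ c := Nat.pow_le_pow_right (by norm_num) h1
        rw [pow_succ] at this
        omega
      · exact h1
      · exfalso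
        have : 2 ^ (c + 1) ≤ 2 ^ a := Nat.pow_le_pow_right (by norm_num) h1
        rw [pow_succ] at this
        omega
    subst e
    refine ⟨rfl, ?_⟩
    exact Nat.pow_right_injective (le_refl 2) (by simp only; omega)
  rcases le_total b a with h1 | h1 <;> rcases le_total d c with h2 | h2
  · exact Or.inl (key a b c d h1 h2 h)
  · exact Or.inr (key a b d c h1 h2 (by omega))
  · right
    have := key b a c d h1 h2 (by omega)
    exact ⟨this.2, this.1⟩
  · left
    have := key b a d c h1 h2 (by omega)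
    exact ⟨this.2, this.1⟩

end Pool.Agent.Q208.HT
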