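import Pool.Agent.Q208.HT.Reps

/-!
# The density of the set
-/

set_option autoImplicit false

namespace Pool.Agent.Q208.HT

open Finset Q123.ET Filter

theorem card_Sn {m s J : ℕ} (hs : s / m + 5 ≤ s) (hJ : 2 ^ (s + 1) ≤ J) :
    2 ^ (s - s / m - 5) ≤ #(Sn m (J + 16)) := by
  obtain ⟨e, he⟩ : ∃ e, e = s / m + 5 := ⟨_, rfl⟩
  obtain ⟨d, hd⟩ : ∃ d, d = s - s / m - 5 := ⟨_, rfl⟩
  have hsd : s = e + d := by omega
  rw [← hd]
  have h1 : #((range (2 ^ d)).image (fun k => 2 ^ e * (2 ^ d + k))) = 2 ^ d := by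
    rw [card_image_of_injective, card_range]
    intro a b h
    have := Nat.eq_of_mul_eq_mul_left (by positivity : 0 < 2 ^ e) h
    omega
  calc 2 ^ d = #((range (2 ^ d)).image (fun k => 2 ^ e * (2 ^ d + k))) := h1.symm
    _ ≤ #(Sn m (J + 16)) := by
      refine card_le_card ?_
      intro t ht
      obtain ⟨k, hk, rfl⟩ := mem_image.1 ht
      rw [mem_range] at hk
      have h2 : 2 ^ s ≤ 2 ^ e * (2 ^ d + k) := by
        rw [hsd, pow_add]
        exact Nat.mul_le_mul_left _ (by omega)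
      have h3 : 2 ^ e * (2 ^ d + k) < 2 ^ (s + 1) := by
        calc 2 ^ e * (2 ^ d + k) < 2 ^ e * (2 ^ d + 2 ^ d) :=
              Nat.mul_lt_mul_of_pos_left (by omega) (by positivity)
          _ = 2 ^ (s + 1) := by rw [hsd]; ring
      have h4 : Nat.log 2 (2 ^ e * (2 ^ d + k)) = s :=
        Nat.log_eq_of_pow_le_of_lt_pow h2 h3
      have h5 : 0 < 2 ^ s := by positivity
      refine mem_filter.2 ⟨mem_Icc.2 ⟨by omega, by omega⟩, ?_⟩
      unfold Tm
      rw [h4, ← he]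
      exact Dvd.intro _ rfl

theorem dens {m : ℕ} (hm : 2 ≤ m) : ∃ c : ℝ, 0 < c ∧ ∀ᶠ N : ℕ in atTop,
    c * Real.log N ^ (1 - 1 / (m : ℝ)) ≤ Real.log (cnt (AA m) N) := by
  obtain ⟨β, hβ⟩ : ∃ β, β = bb m := ⟨_, rfl⟩
  have hβ1 : 2 ≤ β := by
    rw [hβ]
    unfold bb Cc
    calc 2 ≤ 3 ^ 1 := by norm_num
      _ ≤ 3 ^ (2 * m + 4) := Nat.pow_le_pow_right (by norm_num) (by omega)
  have hlβ : 0 < Real.log β := Real.log_pos (by exact_mod_cast hβ1)
  have hl2 : 0 < Real.log 2 := Real.log_pos (by norm_num)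
  obtain ⟨a, ha⟩ : ∃ a : ℝ, a = 1 - 1 / (m : ℝ) := ⟨_, rfl⟩
  have hm2 : (2 : ℝ) ≤ m := by exact_mod_cast hm
  have ha0 : 0 ≤ a := by
    rw [ha, sub_nonneg, div_le_one (by linarith)]
    linarith
  rw [← ha]
  refine ⟨Real.log 2 / 32 * (1 / (8 * Real.log β)) ^ a, by positivity, ?_⟩
  filter_upwards [eventually_ge_atTop (β ^ (2 ^ 12 + 40))] with N hN
  obtain ⟨n, hn⟩ : ∃ n, n = Nat.log β N := ⟨_, rfl⟩
  have hN0 : N ≠ 0 := by
    have : 0 < β ^ (2 ^ 12 + 40) := by positivity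
    omega
  have hn1 : β ^ n ≤ N := by rw [hn]; exact Nat.pow_log_le_self β hN0
  have hn2 : N < β ^ (n + 1) := by rw [hn]; exact Nat.lt_pow_succ_log_self (by omega) N
  have hn3 : 2 ^ 12 + 40 ≤ n := by
    rw [hn]
    exact (Nat.le_log_iff_pow_le (by omega) hN0).2 hN
  obtain ⟨J0, hJ0⟩ : ∃ J0, n = J0 + 17 := ⟨n - 17, by omega⟩
  obtain ⟨s, hs⟩ : ∃ s, Nat.log 2 J0 = s + 1 := by
    have h1 : 12 ≤ Nat.log 2 J0 := (Nat.le_log_iff_pow_le (by norm_num) (by omega)).2 (by omega)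
    exact ⟨Nat.log 2 J0 - 1, by omega⟩
  have hs0 : 11 ≤ s := by
    have h1 : 12 ≤ Nat.log 2 J0 := (Nat.le_log_iff_pow_le (by norm_num) (by omega)).2 (by omega)
    omega
  have hs1 : 2 ^ (s + 1) ≤ J0 := by
    rw [← hs]
    exact Nat.pow_log_le_self 2 (by omega)
  have hs2 : J0 < 2 ^ (s + 2) := by
    have := Nat.lt_pow_succ_log_self (show 1 < 2 by norm_num) J0
    rw [hs] at this
    exact this
  have hs3 : s / m + 5 ≤ s := by
    have h1 : s / m ≤ s / 2 := Nat.div_le_div_left hm (by norm_num)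
    omega
  have h1 := card_Sn (m := m) (J := J0) hs3 hs1
  have h2 : 2 ^ #(Sn m (J0 + 16)) ≤ cnt (AA m) N := by
    refine le_trans ?_ (cnt_mono (AA m) hn1)
    rw [hβ, hJ0]
    exact (single_le_sum (f := fun J => 2 ^ #(Sn m (J + 16))) (fun _ _ => Nat.zero_le _)
      (mem_range.2 (Nat.lt_succ_self J0))).trans (cnt_ge (by omega) J0)
  have h3 : (#(Sn m (J0 + 16)) : ℝ) * Real.log 2 ≤ Real.log (cnt (AA m) N) := by
    rw [← Real.log_pow]
    exact Real.log_le_log (by positivity) (by exact_mod_cast h2)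
  have h4 : ((2 : ℝ) ^ s) ^ a / 32 ≤ (#(Sn m (J0 + 16)) : ℝ) := by
    have h5 : ((2 : ℝ) ^ (s - s / m - 5)) ≤ (#(Sn m (J0 + 16)) : ℝ) := by exact_mod_cast h1
    refine le_trans ?_ h5
    rw [div_le_iff₀ (by norm_num)]
    have h6 : (2 : ℝ) ^ (s - s / m - 5) * 32 = 2 ^ (s - s / m) := by
      have h7 : s - s / m = (s - s / m - 5) + 5 := by omega
      conv_rhs => rw [h7]
      rw [pow_add]
      norm_num
    rw [h6, ← Real.rpow_natCast 2 s, ← Real.rpow_mul (by norm_num), ← Real.rpow_natCast]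
    refine Real.rpow_le_rpow_of_exponent_le (by norm_num) ?_
    have h8 : s / m ≤ s := Nat.div_le_self s m
    rw [Nat.cast_sub h8, ha]
    have h9 : ((s / m : ℕ) : ℝ) ≤ (s : ℝ) / m := Nat.cast_div_le
    have h10 : (s : ℝ) * (1 - 1 / (m : ℝ)) = s - s / m := by ring
    rw [h10]
    linarith
  have h5 : Real.log N ≤ 2 * J0 * Real.log β := by
    have h6 : Real.log N ≤ ((n + 1 : ℕ) : ℝ) * Real.log β := by
      rw [← Real.log_pow]
      exact Real.log_le_log (by exact_mod_cast Nat.pos_of_ne_zero hN0) (by exact_mod_cast hn2.le)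
    refine h6.trans (mul_le_mul_of_nonneg_right ?_ hlβ.le)
    have h7 : n + 1 ≤ 2 * J0 := by omega
    exact_mod_cast h7
  have h6 : Real.log N / (8 * Real.log β) ≤ 2 ^ s := by
    rw [div_le_iff₀ (by positivity)]
    have h7 : (J0 : ℝ) ≤ 4 * 2 ^ s := by
      have h8 : J0 ≤ 4 * 2 ^ s := by
        rw [pow_add] at hs2
        omega
      exact_mod_cast h8
    have h8 : 2 * (J0 : ℝ) * Real.log β ≤ 2 * (4 * 2 ^ s) * Real.log β := by
      refine mul_le_mul_of_nonneg_right ?_ hlβ.le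
      linarith
    linarith
  have hlN : 0 ≤ Real.log N := Real.log_natCast_nonneg N
  have h7 : (Real.log N / (8 * Real.log β)) ^ a ≤ ((2 : ℝ) ^ s) ^ a :=
    Real.rpow_le_rpow (by positivity) h6 ha0
  have h8 : Real.log 2 / 32 * (1 / (8 * Real.log β)) ^ a * Real.log N ^ a =
      Real.log 2 / 32 * (Real.log N / (8 * Real.log β)) ^ a := by
    rw [mul_assoc, ← Real.mul_rpow (by positivity) hlN]
    congr 2
    ring
  rw [h8]
  calc Real.log 2 / 32 * (Real.log N / (8 * Real.log β)) ^ a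
      ≤ Real.log 2 / 32 * ((2 : ℝ) ^ s) ^ a := mul_le_mul_of_nonneg_left h7 (by positivity)
    _ = ((2 : ℝ) ^ s) ^ a / 32 * Real.log 2 := by ring
    _ ≤ (#(Sn m (J0 + 16)) : ℝ) * Real.log 2 := mul_le_mul_of_nonneg_right h4 hl2.le
    _ ≤ _ := h3

end Pool.Agent.Q208.HT
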