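import Pool.Agent.Q99.HT.Stm1
import Pool.Agent.Q208.KN.SY

/-!
# Highly twisted links (helper99), job EV: the symmetries of `Wk`
-/

set_option autoImplicit false

namespace Pool.Agent.Q208.HT

open Finset
open Pool.Agent.Q99.KN
open Pool.Agent.Q208.KN (Wk_an cancel_core)

theorem cz_even (N : ℕ) (hN : 0 < N) (z : ℂ) : cz N (-z) = cz N z := by
  unfold cz
  have h1 : Complex.sin (Real.pi * (-z - N + 1) / 2) ^ 2 =
      Complex.sin (Real.pi * (z - N + 1) / 2) ^ 2 := by
    obtain ⟨m, rfl⟩ : ∃ m, N = m + 1 := ⟨N - 1, by omega⟩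
    have e1 : (Real.pi * (-z - ((m + 1 : ℕ) : ℂ) + 1) / 2 : ℂ) =
        -(Real.pi * (z - ((m + 1 : ℕ) : ℂ) + 1) / 2 + (m : ℕ) * Real.pi) := by
      push_cast
      ring
    rw [e1, Complex.sin_neg, Complex.sin_antiperiodic.add_nat_mul_eq, neg_sq, mul_pow, ← pow_mul, mul_comm m 2,
      pow_mul, neg_one_sq, one_pow, one_mul]
  rw [h1]

theorem ev_aux (hWR : ∀ N : ℕ, 0 < N → ∀ (z : ℂ) (A β C : ℕ),
    (A + β + C + 2 < N → sn N ((N - 1 + z) / 2 - C) * sn N ((N - 1 - z) / 2 - C) *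
      Wk N z A (β + 1) C =
      sn N (C + 1) ^ 2 * (Wk N z A (β + 1) (C + 1) + Wk N z A β (C + 1)) +
        sn N (C + 1) * sn N (C + 2) * Wk N z A β (C + 2)) ∧
    (A + C + 1 < N → sn N ((N - 1 + z) / 2 - C) * sn N ((N - 1 - z) / 2 - C) * Wk N z A 0 C =
      sn N (C + 1) ^ 2 * Wk N z A 0 (C + 1)) ∧
    (A + β + C + 2 = N → sn N ((N - 1 + z) / 2 - C) * sn N ((N - 1 - z) / 2 - C) *
      Wk N z A (β + 1) C = sn N (C + 1) ^ 2 * Wk N z A β (C + 1)) ∧
    (A + C + 1 = N → sn N ((N - 1 + z) / 2 - C) * sn N ((N - 1 - z) / 2 - C) * Wk N z A 0 C =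
      cz N z)) (N : ℕ) (hN : 0 < N) (A : ℕ) : ∀ n β γ C : ℕ, β + γ = n → A + β + C + γ + 1 = N →
    ∀ z : ℂ, Wk N (-z) A β C = Wk N z A β C := by
  intro n
  induction n using Nat.strong_induction_on with
  | _ n ih =>
    intro β γ C hn hs
    have hneg : Differentiable ℂ (fun z : ℂ => Wk N (-z) A β C) :=
      (Wk_an N A β C).comp differentiable_neg
    suffices h : ∀ z : ℂ, sn N ((N - 1 + z) / 2 - C) * sn N ((N - 1 - z) / 2 - C) *
        (Wk N (-z) A β C - Wk N z A β C) = 0 from fun z =>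
      sub_eq_zero.1 (cancel_core N C hN (hneg.sub (Wk_an N A β C)) h z)
    intro z
    have hg : sn N ((N - 1 + z) / 2 - C) * sn N ((N - 1 - z) / 2 - C) =
        sn N ((N - 1 + -z) / 2 - C) * sn N ((N - 1 - -z) / 2 - C) := by
      rw [sub_neg_eq_add, ← sub_eq_add_neg, mul_comm]
    rcases β with _ | β <;> rcases γ with _ | γ
    · have e1 := (hWR N hN z A 0 C).2.2.2 (by omega)
      have e2 := (hWR N hN (-z) A 0 C).2.2.2 (by omega)
      rw [mul_sub, e1, hg, e2, cz_even N hN, sub_self]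
    · have e1 := (hWR N hN z A 0 C).2.1 (by omega)
      have e2 := (hWR N hN (-z) A 0 C).2.1 (by omega)
      have e3 := ih γ (by omega) 0 γ (C + 1) (by omega) (by omega) z
      rw [mul_sub, e1, hg, e2, e3, sub_self]
    · have e1 := (hWR N hN z A β C).2.2.1 (by omega)
      have e2 := (hWR N hN (-z) A β C).2.2.1 (by omega)
      have e3 := ih β (by omega) β 0 (C + 1) (by omega) (by omega) z
      rw [mul_sub, e1, hg, e2, e3, sub_self]
    · have e1 := (hWR N hN z A β C).1 (by omega)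
      have e2 := (hWR N hN (-z) A β C).1 (by omega)
      have e3 := ih (β + 1 + γ) (by omega) (β + 1) γ (C + 1) (by omega) (by omega) z
      have e4 := ih (β + γ + 1) (by omega) β (γ + 1) (C + 1) (by omega) (by omega) z
      have e5 := ih (β + γ) (by omega) β γ (C + 2) (by omega) (by omega) z
      rw [mul_sub, e1, hg, e2, e3, e4, e5]
      ring

theorem refl_Wk (N : ℕ) (z : ℂ) (A β C : ℕ) : Wk N (-z) A β C = Wk N z C β A := by
  unfold Wk
  rw [← Finset.sum_range_reflect]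
  refine Finset.sum_congr rfl fun j hj => ?_
  have hj' : j ≤ β := by
    have := mem_range.1 hj
    omega
  have e1 : β + 1 - 1 - j = β - j := by omega
  have e2 : β - (β - j) = j := by omega
  rw [e1, e2, sub_neg_eq_add, ← sub_eq_add_neg]
  ring

theorem task_EV : Pool.Agent.Q99.HT.S_EV := by
  intro hPF hWR N hN z A b C h
  have h1 : Wk N (-z) A b C = Wk N z A b C :=
    ev_aux (hWR hPF) N hN A _ b (N - 1 - A - b - C) C rfl (by omega) z
  have h2 := refl_Wk N z A b C
  exact ⟨h1, h2, h1.symm.trans h2⟩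

end Pool.Agent.Q208.HT
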