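import Pool.Agent.Q208.HT.BB

/-!
# Highly twisted links (helper99), job FB: bound of the weight of a region
-/

set_option autoImplicit false

namespace Pool.Agent.Q208.HT

open Finset
open Pool.Agent.Q99.KN
open Pool.Agent.Q99.HT
open Pool.Agent.Q208.KN (Wk_an)

theorem ez_nrm (N : ℕ) (w : ℤ) (x : ℝ) : ‖ez N w (x : ℂ)‖ = 1 := by
  unfold ez
  rw [show (Complex.I * Real.pi * w * (x : ℂ) ^ 2 / (4 * N) : ℂ) =
    ((Real.pi * w * x ^ 2 / (4 * N) : ℝ) : ℂ) * Complex.I by push_cast; ring]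
  exact Complex.norm_exp_ofReal_mul_I _

theorem ez_dr (N : ℕ) (w : ℤ) (z : ℂ) : HasDerivAt (fun z => ez N w z)
    (ez N w z * (Complex.I * Real.pi * w * (2 * z) / (4 * N))) z := by
  unfold ez
  have h1 : HasDerivAt (fun z : ℂ => Complex.I * Real.pi * w * z ^ 2 / (4 * N))
      (Complex.I * Real.pi * w * (2 * z) / (4 * N)) z := by
    have h2 := ((hasDerivAt_pow 2 z).const_mul (Complex.I * Real.pi * w)).div_const (4 * (N : ℂ))
    refine h2.congr_deriv ?_
    simp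
  exact h1.cexp

theorem sn_dr (N : ℕ) (z : ℂ) : HasDerivAt (fun z : ℂ => Complex.sin (Real.pi * z / N))
    (Complex.cos (Real.pi * z / N) * (Real.pi / N)) z := by
  have h1 : HasDerivAt (fun z : ℂ => (Real.pi * z / N : ℂ)) (Real.pi * 1 / N) z :=
    ((hasDerivAt_id z).const_mul _).div_const _
  rw [mul_one] at h1
  exact h1.csin

theorem zl_real (N k : ℕ) : zl N k = ((2 * (k : ℝ) + 1 - N : ℝ) : ℂ) := by
  unfold zl
  push_cast
  rfl

theorem der_Fk {N k A b C : ℕ} (w : ℤ) (hk : k < N) :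
    ‖deriv (fun z : ℂ => ez N w z * Complex.sin (Real.pi * z / N) * Wk N z A b C) (zl N k)‖ ≤
      (Real.pi * |(w : ℝ)| + Real.pi + 1) *
        (‖Wk N (zl N k) A b C‖ + ‖deriv (fun z => Wk N z A b C) (zl N k)‖) := by
  have hN1 : (1 : ℝ) ≤ N := by exact_mod_cast (by omega : 1 ≤ N)
  have hN0 : (0 : ℝ) < N := by linarith
  have hpi := Real.pi_pos
  obtain ⟨x, hx⟩ : ∃ x : ℝ, x = 2 * (k : ℝ) + 1 - N := ⟨_, rfl⟩
  have hz : zl N k = (x : ℂ) := by rw [hx]; exact zl_real N k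
  have hxN : |x| ≤ N := by
    have h1 : (k : ℝ) + 1 ≤ N := by exact_mod_cast hk
    have h2 : (0 : ℝ) ≤ k := Nat.cast_nonneg k
    rw [hx, abs_le]
    constructor <;> linarith
  have hW := ((Wk_an N A b C).differentiableAt (x := zl N k)).hasDerivAt
  have h := ((ez_dr N w (zl N k)).mul (sn_dr N (zl N k))).mul hW
  have h' : deriv (fun z : ℂ => ez N w z * Complex.sin (Real.pi * z / N) * Wk N z A b C) (zl N k) =
      (ez N w (zl N k) * (Complex.I * Real.pi * w * (2 * zl N k) / (4 * N)) *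
        Complex.sin (Real.pi * zl N k / N) +
      ez N w (zl N k) * (Complex.cos (Real.pi * zl N k / N) * (Real.pi / N))) * Wk N (zl N k) A b C +
      ez N w (zl N k) * Complex.sin (Real.pi * zl N k / N) *
        deriv (fun z => Wk N z A b C) (zl N k) := h.deriv
  rw [h']
  have e1 : ‖ez N w (zl N k)‖ = 1 := by rw [hz]; exact ez_nrm N w x
  have e2 : ‖Complex.sin (Real.pi * zl N k / N)‖ ≤ 1 := by
    rw [hz, show (Real.pi * (x : ℂ) / N : ℂ) = ((Real.pi * x / N : ℝ) : ℂ) by push_cast; rfl,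
      ← Complex.ofReal_sin, Complex.norm_real]
    exact Real.abs_sin_le_one _
  have e3 : ‖Complex.cos (Real.pi * zl N k / N)‖ ≤ 1 := by
    rw [hz, show (Real.pi * (x : ℂ) / N : ℂ) = ((Real.pi * x / N : ℝ) : ℂ) by push_cast; rfl,
      ← Complex.ofReal_cos, Complex.norm_real]
    exact Real.abs_cos_le_one _
  have e4 : ‖(Complex.I * Real.pi * w * (2 * zl N k) / (4 * N) : ℂ)‖ ≤ Real.pi * |(w : ℝ)| := by
    rw [hz, show (Complex.I * Real.pi * w * (2 * (x : ℂ)) / (4 * N) : ℂ) =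
      ((Real.pi * w * (x / N) / 2 : ℝ) : ℂ) * Complex.I by push_cast; ring, norm_mul,
      Complex.norm_I, mul_one, Complex.norm_real, Real.norm_eq_abs, abs_div, abs_mul, abs_mul,
      abs_div, abs_of_pos hpi, abs_of_pos hN0, abs_two]
    have h1 : |x| / N ≤ 1 := by
      rw [div_le_one hN0]
      exact hxN
    have h2 : Real.pi * |(w : ℝ)| * (|x| / N) ≤ Real.pi * |(w : ℝ)| * 1 :=
      mul_le_mul_of_nonneg_left h1 (by positivity)
    have h3 : 0 ≤ Real.pi * |(w : ℝ)| := by positivity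
    linarith
  have e5 : ‖(Real.pi / N : ℂ)‖ ≤ Real.pi := by
    rw [show (Real.pi / N : ℂ) = ((Real.pi / N : ℝ) : ℂ) by push_cast; rfl, Complex.norm_real,
      Real.norm_eq_abs, abs_of_pos (by positivity)]
    rw [div_le_iff₀ hN0]
    nlinarith
  obtain ⟨W, hWW⟩ : ∃ W, W = ‖Wk N (zl N k) A b C‖ := ⟨_, rfl⟩
  obtain ⟨V, hV⟩ : ∃ V, V = ‖deriv (fun z => Wk N z A b C) (zl N k)‖ := ⟨_, rfl⟩
  have hW0 : 0 ≤ W := by rw [hWW]; exact norm_nonneg _
  have hV0 : 0 ≤ V := by rw [hV]; exact norm_nonneg _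
  refine (norm_add_le _ _).trans ?_
  rw [norm_mul, norm_mul, norm_mul, e1, ← hWW, ← hV, one_mul]
  have s1 : ‖ez N w (zl N k) * (Complex.I * Real.pi * w * (2 * zl N k) / (4 * N)) *
      Complex.sin (Real.pi * zl N k / N) +
      ez N w (zl N k) * (Complex.cos (Real.pi * zl N k / N) * (Real.pi / N))‖ ≤
      Real.pi * |(w : ℝ)| + Real.pi := by
    refine (norm_add_le _ _).trans ?_
    rw [norm_mul, norm_mul, norm_mul, norm_mul, e1, one_mul, one_mul]
    have t1 := mul_le_mul e4 e2 (norm_nonneg _) (by positivity)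
    have t2 := mul_le_mul e3 e5 (norm_nonneg _) (by norm_num)
    linarith
  have s2 := mul_le_mul_of_nonneg_right s1 hW0
  have s3 := mul_le_mul_of_nonneg_right e2 hV0
  have s4 : 0 ≤ (Real.pi * |(w : ℝ)| + Real.pi) * V := by positivity
  nlinarith

theorem task_FB : S_FB := by
  intro hBB hEV hPF hWR hD1 hTG hTG5 hTW hT1 α hFr hAcu
  obtain ⟨C0, κ, hκ, hB⟩ := hBB hEV hPF hWR hD1 hTG hTG5 hTW hT1 α hFr hAcu
  refine ⟨κ, hκ, fun w => ⟨(Real.pi * |(w : ℝ)| + Real.pi + 1) * |C0|, fun N A b C hs hC => ?_⟩⟩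
  have hN1 : (1 : ℝ) ≤ N := by exact_mod_cast (by omega : 1 ≤ N)
  have hN0 : (0 : ℝ) < N := by linarith
  have hpi := Real.pi_pos
  obtain ⟨K, hK⟩ : ∃ K, K = Real.pi * |(w : ℝ)| + Real.pi + 1 := ⟨_, rfl⟩
  have hK0 : 0 < K := by rw [hK]; positivity
  obtain ⟨X, hX⟩ : ∃ X, X = Real.exp (eX N α A b C - κ * (((A : ℝ) - N * α 0) ^ 2 +
    ((b : ℝ) - N * (α 1 + α 4)) ^ 2 + ((C : ℝ) - N * α 3) ^ 2) / N) := ⟨_, rfl⟩
  rw [← hX, ← hK]
  have hX0 : 0 < X := by rw [hX]; exact Real.exp_pos _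
  unfold Fk
  have h1 : ∀ k ∈ range N, ‖deriv (fun z : ℂ => ez N w z * Complex.sin (Real.pi * z / N) *
      Wk N z A b C) (zl N k)‖ ≤ K * (|C0| * N ^ 3 * X) := by
    intro k hk
    have hk' := mem_range.1 hk
    refine (der_Fk w hk').trans ?_
    rw [← hK]
    apply mul_le_mul_of_nonneg_left _ hK0.le
    refine (hB N A b C k hs hC hk').trans ?_
    have h2 : C0 * (N : ℝ) ^ 3 ≤ |C0| * N ^ 3 :=
      mul_le_mul_of_nonneg_right (le_abs_self _) (by positivity)
    have h3 : Real.exp (eX N α A b C - κ * dX N α A b C k / N) ≤ X := by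
      rw [hX]
      apply Real.exp_le_exp.2
      have h4 : κ * (((A : ℝ) - N * α 0) ^ 2 + ((b : ℝ) - N * (α 1 + α 4)) ^ 2 +
          ((C : ℝ) - N * α 3) ^ 2) / N ≤ κ * dX N α A b C k / N := by
        apply div_le_div_of_nonneg_right _ hN0.le
        apply mul_le_mul_of_nonneg_left _ hκ.le
        unfold dX
        linarith [sq_nonneg ((k : ℝ) - N / 2)]
      linarith
    exact mul_le_mul h2 h3 (Real.exp_pos _).le (by positivity)
  refine (norm_sum_le_of_le _ h1).trans (le_of_eq ?_)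
  rw [sum_const, card_range, nsmul_eq_mul]
  ring

end Pool.Agent.Q208.HT
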