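import Pool.Agent.Q123.CU.Clu

/-!
# Dense homogeneous sets have many representations
-/

set_option autoImplicit false

namespace Pool.Agent.Q208.HT

open Finset Q123.ET

theorem geo {ρ : ℝ} (hρ : 2 ≤ ρ) (i : ℕ) : ∑ k ∈ range i, ρ ^ (k + 1) ≤ 2 * ρ ^ i := by
  induction i with
  | zero => simp
  | succ i ih =>
    rw [sum_range_succ]
    have h1 : 0 < ρ ^ i := by positivity
    have h2 : ρ ^ (i + 1) = ρ ^ i * ρ := pow_succ _ _
    nlinarith

/-- the exact exponent `1 - 1 / (M + 1)`: if `log A(2 ^ n)` is large compared with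
`n ^ (M / (M + 1))` then some number has `2 ^ (M + 1)` representations -/
theorem pos_core {A : Set ℕ} {B : ℕ}
    (hB : ∀ x L : ℕ, 1 ≤ L → L ≤ x → Covered (A ∩ Set.Iio x) L (B * cnt A (B * (x / L))))
    (M b : ℕ) (hb : B ≤ 2 ^ b) (C : ℝ) (hC : 7 + 2 * (b : ℝ) ≤ C) (n : ℕ) (hn : 1 ≤ n)
    (hpos : 0 < Real.logb 2 (cnt A (2 ^ n)))
    (h : (2 * C) ^ (M + 1) * (n : ℝ) ^ M ≤ Real.logb 2 (cnt A (2 ^ n)) ^ (M + 1)) :
    ∃ k < 2 * 2 ^ n, 2 ^ (M + 1) ≤ rep A k := by
  classical
  obtain ⟨a, ha⟩ : ∃ a : ℕ → ℝ, ∀ k, a k = Real.logb 2 (cnt A (2 ^ k)) := ⟨_, fun _ => rfl⟩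
  rw [← ha] at hpos h
  have hle : ∀ k, a k ≤ k := by
    intro k
    rw [ha]
    rcases Nat.eq_zero_or_pos (cnt A (2 ^ k)) with h0 | h0
    · rw [h0]
      simp
    · have h1 : (cnt A (2 ^ k) : ℝ) ≤ 2 ^ k := by exact_mod_cast cnt_le A (2 ^ k)
      have h2 := Real.logb_le_logb_of_le (b := 2) (by norm_num) (by exact_mod_cast h0) h1
      rw [Real.logb_pow, Real.logb_self_eq_one (by norm_num), mul_one] at h2
      exact h2
  have heq : ∀ k, 1 ≤ cnt A (2 ^ k) → (cnt A (2 ^ k) : ℝ) = 2 ^ a k := by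
    intro k hk
    rw [ha, Real.rpow_logb (by norm_num) (by norm_num) (by exact_mod_cast hk)]
  have hn0 : (0 : ℝ) < n := by exact_mod_cast hn
  obtain ⟨θ, hθ⟩ : ∃ θ : ℝ, θ = a n / (2 * n) := ⟨_, rfl⟩
  have hθ0 : 0 < θ := by rw [hθ]; positivity
  have hθn : θ * n = a n / 2 := by rw [hθ]; field_simp
  have hθ1 : θ ≤ 1 / 2 := by
    rw [hθ, div_le_iff₀ (by positivity)]
    have := hle n
    linarith
  have hM0 : (0 : ℝ) ≤ M := Nat.cast_nonneg _
  have hb0 : (0 : ℝ) ≤ b := Nat.cast_nonneg _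
  have hC0 : 7 ≤ C := by linarith
  -- the maximum
  obtain ⟨p, hp, hmax⟩ := Finset.exists_max_image (range (n + 1)) (fun k => a k - θ * k)
    ⟨0, mem_range.2 (Nat.succ_pos n)⟩
  have hpn : p ≤ n := by
    have := mem_range.1 hp
    omega
  have hp0 : (0 : ℝ) ≤ p := Nat.cast_nonneg _
  have h1 : a n / 2 ≤ a p - θ * p := by
    have := hmax n (mem_range.2 (Nat.lt_succ_self n))
    linarith
  have hθp : 0 ≤ θ * p := by positivity
  have hap : a n / 2 ≤ a p := by linarith
  have hcp : 1 ≤ cnt A (2 ^ p) := by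
    by_contra hcon
    have h0 : cnt A (2 ^ p) = 0 := by omega
    have : a p = 0 := by
      rw [ha, h0]
      simp
    linarith
  have hbd : ∀ t ≤ p, (cnt A (2 ^ (p - t)) : ℝ) ≤ 2 ^ (a p - θ * t) := by
    intro t ht
    rcases Nat.eq_zero_or_pos (cnt A (2 ^ (p - t))) with h0 | h0
    · rw [h0]
      simpa using Real.rpow_nonneg (by norm_num : (0 : ℝ) ≤ 2) (a p - θ * t)
    · rw [heq _ h0]
      refine Real.rpow_le_rpow_of_exponent_le (by norm_num) ?_
      have h2 := hmax (p - t) (mem_range.2 (by omega))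
      rw [Nat.cast_sub ht] at h2
      nlinarith
  -- the scales
  obtain ⟨ρ, hρ⟩ : ∃ ρ : ℝ, ρ = C / θ := ⟨_, rfl⟩
  have hρC : 2 * C ≤ ρ := by
    rw [hρ, le_div_iff₀ hθ0]
    nlinarith
  have hρ2 : 2 ≤ ρ := by linarith
  have hρθ : θ * ρ = C := by rw [hρ]; field_simp
  have hρM : C * ρ ^ M ≤ a n / 2 := by
    have e1 : ρ = 2 * C * n / a n := by
      rw [hρ, hθ]
      field_simp
    have e2 : C * ρ ^ M * (2 * a n ^ M) = (2 * C) ^ (M + 1) * (n : ℝ) ^ M := by
      rw [e1, div_pow, mul_pow (2 * C) (n : ℝ) M, pow_succ (2 * C) M]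
      field_simp
    have e3 : a n / 2 * (2 * a n ^ M) = a n ^ (M + 1) := by
      rw [pow_succ]
      ring
    have e4 : 0 < 2 * a n ^ M := by positivity
    refine le_of_mul_le_mul_right ?_ e4
    rw [e2, e3]
    exact h
  obtain ⟨l, hl⟩ : ∃ l : ℕ → ℕ, ∀ i, l i = ⌈ρ ^ (i + 1)⌉₊ := ⟨_, fun _ => rfl⟩
  have hl1 : ∀ i, ρ ^ (i + 1) ≤ l i := fun i => by rw [hl]; exact Nat.le_ceil _
  have hl2 : ∀ i, (l i : ℝ) ≤ ρ ^ (i + 1) + 1 := fun i => by
    rw [hl]
    exact (Nat.ceil_lt_add_one (by positivity)).le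
  have hρ1 : ∀ i, 1 ≤ ρ ^ i := fun i => one_le_pow₀ (by linarith)
  have hρi : ∀ i : ℕ, (i : ℝ) ≤ ρ ^ i := by
    intro i
    have e1 : (i : ℝ) ≤ 2 ^ i := by exact_mod_cast (Nat.lt_two_pow_self (n := i)).le
    exact e1.trans (pow_le_pow_left₀ (by norm_num) hρ2 i)
  have hlp : ∀ i < M, l i ≤ p := by
    intro i hi
    have e1 : ρ ^ (i + 1) ≤ ρ ^ M := pow_le_pow_right₀ (by linarith) hi
    have e2 := hl2 i
    have e3 := hle p
    have e4 := hρ1 M
    have : (l i : ℝ) ≤ p := by nlinarith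
    exact_mod_cast this
  have hlb : ∀ i, b ≤ l i := by
    intro i
    have e1 : ρ ^ 1 ≤ ρ ^ (i + 1) := pow_le_pow_right₀ (by linarith) (by omega)
    have e2 := hl1 i
    have : (b : ℝ) ≤ l i := by
      rw [pow_one] at e1
      linarith
    exact_mod_cast this
  have hsum : ∀ i : ℕ, ((∑ k ∈ range i, (l k + 1) : ℕ) : ℝ) ≤ 2 * i + 2 * ρ ^ i := by
    intro i
    push_cast
    have e1 : ∑ k ∈ range i, ((l k : ℝ) + 1) ≤ ∑ k ∈ range i, (ρ ^ (k + 1) + 2) :=
      sum_le_sum fun k _ => by linarith [hl2 k]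
    have e4 : ∑ k ∈ range i, (ρ ^ (k + 1) + 2) = ∑ k ∈ range i, ρ ^ (k + 1) + 2 * i := by
      rw [sum_add_distrib, sum_const, card_range, nsmul_eq_mul]
      ring
    have e2 := geo hρ2 i
    linarith
  have hprod : ∀ i ≤ M, ∏ k ∈ range i, (2 * (if k < M then 2 ^ l k else 2 ^ p)) =
      2 ^ (∑ k ∈ range i, (l k + 1)) := by
    intro i hi
    rw [← prod_pow_eq_pow_sum]
    refine prod_congr rfl fun k hk => ?_
    have := mem_range.1 hk
    rw [if_pos (by omega), pow_succ]
    ring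
  obtain ⟨k, hk1, hk2⟩ := Q123.CU.rep_of_covers (A := A) (x := 2 ^ p) hcp (M + 1)
    (fun i => if i < M then 2 ^ l i else 2 ^ p)
    (fun i => if i < M then B * cnt A (B * (2 ^ p / 2 ^ l i)) else 1) (by
      intro i hi
      by_cases hiM : i < M
      · simp only [if_pos hiM]
        exact hB (2 ^ p) (2 ^ l i) Nat.one_le_two_pow (Nat.pow_le_pow_right (by norm_num) (hlp i hiM))
      · simp only [if_neg hiM]
        refine ⟨{0}, by simp, ?_⟩
        rintro a ⟨-, ha⟩
        refine ⟨0, by simp, by positivity, ?_⟩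
        have : a < 2 ^ p := ha
        rw [zero_add]
        exact_mod_cast this) (by
      intro i hi
      rw [hprod i (by omega)]
      obtain ⟨S, hS⟩ : ∃ S, S = ∑ k ∈ range i, (l k + 1) := ⟨_, rfl⟩
      have hSb := hsum i
      rw [← hS] at hSb ⊢
      have e24 : (2 : ℝ) * 4 ^ i = 2 ^ ((1 : ℝ) + 2 * i) := by
        rw [Real.rpow_add (by norm_num), Real.rpow_one, Real.rpow_mul (by norm_num)]
        norm_num
      have eS : (2 : ℝ) ^ S = 2 ^ (S : ℝ) := (Real.rpow_natCast 2 S).symm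
      by_cases hiM : i < M
      · simp only [if_pos hiM]
        have hN : ((B * cnt A (B * (2 ^ p / 2 ^ l i)) : ℕ) : ℝ) ≤
            2 ^ (b : ℝ) * 2 ^ (a p - θ * ((l i : ℝ) - b)) := by
          rw [Nat.pow_div (hlp i hiM) (by norm_num)]
          have f1 : B * 2 ^ (p - l i) ≤ 2 ^ (p - (l i - b)) := by
            refine (Nat.mul_le_mul_right _ hb).trans ?_
            rw [← pow_add]
            refine Nat.pow_le_pow_right (by norm_num) ?_
            have := hlb i
            have := hlp i hiM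
            omega
          have f2 : (cnt A (B * 2 ^ (p - l i)) : ℝ) ≤ 2 ^ (a p - θ * ((l i : ℝ) - b)) := by
            have f3 := hbd (l i - b) (by have := hlp i hiM; omega)
            rw [Nat.cast_sub (hlb i)] at f3
            refine le_trans ?_ f3
            exact_mod_cast cnt_mono A f1
          push_cast
          refine mul_le_mul ?_ f2 (Nat.cast_nonneg _) (by positivity)
          rw [Real.rpow_natCast]
          exact_mod_cast hb
        have hfin : ((2 * 4 ^ i * (B * cnt A (B * (2 ^ p / 2 ^ l i))) * 2 ^ S : ℕ) : ℝ) ≤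
            (cnt A (2 ^ p) : ℝ) := by
          rw [heq p hcp]
          have g1 : ((2 * 4 ^ i * (B * cnt A (B * (2 ^ p / 2 ^ l i))) * 2 ^ S : ℕ) : ℝ) =
              (2 * 4 ^ i) * ((B * cnt A (B * (2 ^ p / 2 ^ l i)) : ℕ) : ℝ) * 2 ^ S := by
            push_cast
            ring
          rw [g1]
          calc (2 * 4 ^ i : ℝ) * ((B * cnt A (B * (2 ^ p / 2 ^ l i)) : ℕ) : ℝ) * 2 ^ S
              ≤ (2 * 4 ^ i) * (2 ^ (b : ℝ) * 2 ^ (a p - θ * ((l i : ℝ) - b))) * 2 ^ S :=
                mul_le_mul_of_nonneg_right (mul_le_mul_of_nonneg_left hN (by positivity))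
                  (by positivity)
            _ = 2 ^ (((1 : ℝ) + 2 * i) + (b + (a p - θ * ((l i : ℝ) - b))) + S) := by
                rw [e24, eS, ← Real.rpow_add (by norm_num), ← Real.rpow_add (by norm_num),
                  ← Real.rpow_add (by norm_num)]
            _ ≤ 2 ^ a p := by
                refine Real.rpow_le_rpow_of_exponent_le (by norm_num) ?_
                have g2 : C * ρ ^ i ≤ θ * l i := by
                  calc C * ρ ^ i = θ * ρ ^ (i + 1) := by rw [← hρθ, pow_succ]; ring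
                    _ ≤ θ * l i := mul_le_mul_of_nonneg_left (hl1 i) hθ0.le
                have g3 : θ * b ≤ b := by nlinarith
                have g4 := hρ1 i
                have g5 : (7 + 2 * (b : ℝ)) * ρ ^ i ≤ C * ρ ^ i :=
                  mul_le_mul_of_nonneg_right hC (by linarith)
                have g6 : 2 * (b : ℝ) ≤ 2 * b * ρ ^ i :=
                  le_mul_of_one_le_right (by positivity) g4
                have g7 := hρi i
                nlinarith
        exact_mod_cast hfin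
      · have hiM' : i = M := by omega
        simp only [if_neg hiM]
        rw [hiM'] at hSb
        have hfin : ((2 * 4 ^ i * 1 * 2 ^ S : ℕ) : ℝ) ≤ (cnt A (2 ^ p) : ℝ) := by
          rw [heq p hcp]
          have g1 : ((2 * 4 ^ i * 1 * 2 ^ S : ℕ) : ℝ) = (2 * 4 ^ i) * 2 ^ S := by
            push_cast
            ring
          rw [g1, e24, eS, ← Real.rpow_add (by norm_num)]
          refine Real.rpow_le_rpow_of_exponent_le (by norm_num) ?_
          have g4 := hρ1 M
          have g5 : (7 + 2 * (b : ℝ)) * ρ ^ M ≤ C * ρ ^ M :=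
            mul_le_mul_of_nonneg_right hC (by linarith)
          have g6 : 2 * (b : ℝ) ≤ 2 * b * ρ ^ M :=
            le_mul_of_one_le_right (by positivity) g4
          have g7 := hρi M
          rw [hiM']
          nlinarith
        exact_mod_cast hfin)
  refine ⟨k, lt_of_lt_of_le hk1 ?_, hk2⟩
  exact Nat.mul_le_mul_left _ (Nat.pow_le_pow_right (by norm_num) hpn)

end Pool.Agent.Q208.HT
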