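import Pool.Agent.Q208.HT.Win

/-!
# The representation function and the covering numbers of the set
-/

set_option autoImplicit false

namespace Pool.Agent.Q208.HT

open Finset Q123.ET

/-- at most `2 ^ (m + 2)` representations -/
theorem rep_le {m : ℕ} (hm : 1 ≤ m) (s : ℕ) : rep (AA m) s ≤ 2 ^ (m + 2) := by
  classical
  unfold rep
  obtain ⟨G, hG⟩ : ∃ G : Finset (ℕ × ℕ), G = {p ∈ antidiagonal s | p.1 ∈ AA m ∧ p.2 ∈ AA m} :=
    ⟨_, rfl⟩
  rw [← hG]
  rcases G.eq_empty_or_nonempty with h0 | ⟨p0, hp0⟩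
  · rw [h0]
    simp
  have hmem : ∀ p ∈ G, p.1 + p.2 = s ∧ p.1 ∈ AA m ∧ p.2 ∈ AA m := by
    intro p hp
    rw [hG, mem_filter, HasAntidiagonal.mem_antidiagonal] at hp
    exact hp
  -- the parameters
  have hpar : ∀ p : ℕ × ℕ, p ∈ G → ∃ (n n' : ℕ) (x x' : Finset ℕ), x ⊆ Sn m n ∧ x' ⊆ Sn m n' ∧
      p.1 = aa m n x ∧ p.2 = aa m n' x' := by
    intro p hp
    obtain ⟨_, ⟨n, x, hx, h1⟩, ⟨n', x', hx', h2⟩⟩ := hmem p hp
    exact ⟨n, n', x, x', hx, hx', h1, h2⟩
  choose! N N' X X' hX hX' h1 h2 using hpar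
  -- all pairs have the same sums of entries
  have hsum : ∀ p ∈ G, ∀ c < Cc m, Zz m (N p) (X p) c + Zz m (N' p) (X' p) c =
      Zz m (N p0) (X p0) c + Zz m (N' p0) (X' p0) c := by
    intro p hp
    refine tot_add (show 3 ^ Cc m ≤ bb m from le_rfl) (N p + N' p + N p0 + N' p0 + 1)
      _ _ _ _ ?_ ?_ ?_ ?_ ?_
    · exact fun c hc => (Zz_lt hm (hX p hp) hc).trans_le (Nat.pow_le_pow_right (by norm_num) (by omega))
    · exact fun c hc => (Zz_lt hm (hX' p hp) hc).trans_le (Nat.pow_le_pow_right (by norm_num) (by omega))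
    · exact fun c hc => (Zz_lt hm (hX p0 hp0) hc).trans_le
        (Nat.pow_le_pow_right (by norm_num) (by omega))
    · exact fun c hc => (Zz_lt hm (hX' p0 hp0) hc).trans_le
        (Nat.pow_le_pow_right (by norm_num) (by omega))
    · have e1 := (hmem p hp).1
      have e2 := (hmem p0 hp0).1
      rw [h1 p hp, h2 p hp] at e1
      rw [h1 p0 hp0, h2 p0 hp0] at e2
      exact e1.trans e2.symm
  have hN : ∀ p ∈ G, N p = N p0 ∨ N p = N' p0 := by
    intro p hp
    have := hsum p hp 0 (by unfold Cc; omega)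
    rw [Zz_zero, Zz_zero, Zz_zero, Zz_zero] at this
    rcases pair_pow this with h | h
    · exact Or.inl h.1
    · exact Or.inr h.1
  have hXi : ∀ p ∈ G, ∀ i ≤ m, Xx m (N p) i (X p) = Xx m (N p0) i (X p0) ∨
      Xx m (N p) i (X p) = Xx m (N' p0) i (X' p0) := by
    intro p hp i hi
    have e1 := hsum p hp (2 * i + 2) (by unfold Cc; omega)
    have e2 := hsum p hp (2 * i + 3) (by unfold Cc; omega)
    rw [Zz_ev, Zz_ev, Zz_ev, Zz_ev] at e1
    rw [Zz_od, Zz_od, Zz_od, Zz_od] at e2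
    exact pair_sq e1 e2
  let σ : ℕ × ℕ → Bool × (Fin (m + 1) → Bool) := fun p =>
    (decide (N p = N p0), fun i => decide (Xx m (N p) i (X p) = Xx m (N p0) i (X p0)))
  have hcard : #G ≤ #(univ : Finset (Bool × (Fin (m + 1) → Bool))) := by
    refine card_le_card_of_injOn σ (fun _ _ => mem_coe.2 (mem_univ _)) ?_
    intro p hp p' hp' h
    rw [mem_coe] at hp hp'
    have e1 : N p = N p' := by
      have e := congrArg Prod.fst h
      simp only [σ, decide_eq_decide] at e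
      rcases hN p hp with a | a <;> rcases hN p' hp' with b | b
      · rw [a, b]
      · rw [e.1 a, a]
      · rw [e.2 b, b]
      · rw [a, b]
    have e2 : ∀ i ≤ m, Xx m (N p) i (X p) = Xx m (N p') i (X p') := by
      intro i hi
      have e := congrFun (congrArg Prod.snd h) ⟨i, by omega⟩
      simp only [σ, decide_eq_decide] at e
      rcases hXi p hp i hi with a | a <;> rcases hXi p' hp' i hi with b | b
      · rw [a, b]
      · rw [e.1 a, a]
      · rw [e.2 b, b]
      · rw [a, b]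
    have e3 : X p = X p' := by
      have hXp := hX p hp
      have hXp' := hX p' hp'
      rw [e1] at hXp e2
      exact Subset.antisymm (Xx_inj hm hXp hXp' e2) (Xx_inj hm hXp' hXp fun i hi => (e2 i hi).symm)
    have e4 : p.1 = p'.1 := by rw [h1 p hp, h1 p' hp', e1, e3]
    have e5 := (hmem p hp).1
    have e6 := (hmem p' hp').1
    exact Prod.ext e4 (by omega)
  refine hcard.trans ?_
  rw [card_univ, Fintype.card_prod, Fintype.card_bool, Fintype.card_fun, Fintype.card_bool,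
    Fintype.card_fin]
  apply le_of_eq
  ring

/-- the number of the elements -/
theorem cnt_ge {m : ℕ} (hm : 1 ≤ m) (J0 : ℕ) :
    ∑ J ∈ range (J0 + 1), 2 ^ #(Sn m (J + 16)) ≤ cnt (AA m) (bb m ^ (J0 + 17)) := by
  classical
  obtain ⟨S, hS⟩ : ∃ S : Finset (Σ _ : ℕ, Finset ℕ),
      S = (range (J0 + 1)).sigma (fun J => (Sn m (J + 16)).powerset) := ⟨_, rfl⟩
  have hc : ∑ J ∈ range (J0 + 1), 2 ^ #(Sn m (J + 16)) = #S := by
    rw [hS, card_sigma]
    refine sum_congr rfl fun J _ => ?_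
    rw [card_powerset]
  rw [hc]
  unfold cnt
  refine card_le_card_of_injOn (fun y => aa m (y.1 + 16) y.2) ?_ ?_
  · intro y hy
    rw [mem_coe, hS, mem_sigma, mem_powerset, mem_range] at hy
    refine mem_coe.2 (mem_filter.2 ⟨mem_range.2 ?_, ⟨_, _, hy.2, rfl⟩⟩)
    refine (aa_size hm hy.2).2.trans_le ?_
    exact Nat.pow_le_pow_right (Nat.pos_of_ne_zero (by unfold bb; positivity)) (by omega)
  · rintro ⟨J, x⟩ hy ⟨J', x'⟩ hy' h
    rw [mem_coe, hS, mem_sigma, mem_powerset, mem_range] at hy hy'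
    obtain ⟨e1, e2⟩ := aa_inj hm hy.2 hy'.2 h
    have e3 : J = J' := by
      simp only at e1
      omega
    subst e3
    simp only at e2
    rw [e2]

theorem Sn_inter {m n J : ℕ} {x : Finset ℕ} (hx : x ⊆ Sn m n) :
    x.filter (· ≤ J) ⊆ Sn m (J + 16) := by
  intro t ht
  have h1 := mem_filter.1 ht
  have h2 := mem_filter.1 (hx h1.1)
  have h3 := mem_Icc.1 h2.1
  exact mem_filter.2 ⟨mem_Icc.2 ⟨h3.1, by have := h1.2; omega⟩, h2.2⟩

/-- the set is homogeneous -/
theorem hom {m : ℕ} (hm : 1 ≤ m) : Homogeneous (AA m) := by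
  classical
  obtain ⟨β, hβ⟩ : ∃ β, β = bb m := ⟨_, rfl⟩
  have hβ1 : 2 ≤ β := by
    rw [hβ]
    unfold bb Cc
    calc 2 ≤ 3 ^ 1 := by norm_num
      _ ≤ 3 ^ (2 * m + 4) := Nat.pow_le_pow_right (by norm_num) (by omega)
  refine ⟨β ^ 20, fun X L hL hLX => ?_⟩
  obtain ⟨j, hj⟩ : ∃ j, j = Nat.log β L := ⟨_, rfl⟩
  have hj1 : β ^ j ≤ L := by
    rw [hj]
    exact Nat.pow_log_le_self β (by omega)
  have hj2 : L < β ^ (j + 1) := by
    rw [hj]
    exact Nat.lt_pow_succ_log_self (by omega) L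
  have hβj : 0 < β ^ j := by positivity
  obtain ⟨y, hy⟩ : ∃ y, y = X / β ^ j := ⟨_, rfl⟩
  have hy1 : 1 ≤ y := by
    rw [hy]
    exact Nat.div_pos (hj1.trans hLX) hβj
  obtain ⟨J0, hJ0⟩ : ∃ J0, J0 = Nat.log β y := ⟨_, rfl⟩
  have hJ1 : β ^ J0 ≤ y := by
    rw [hJ0]
    exact Nat.pow_log_le_self β (by omega)
  -- the intervals
  obtain ⟨S, hS⟩ : ∃ S : Finset (Σ _ : ℕ, Finset ℕ),
      S = (range (J0 + 1)).sigma (fun J => (Sn m (J + 16)).powerset) := ⟨_, rfl⟩
  have hc : ∑ J ∈ range (J0 + 1), 2 ^ #(Sn m (J + 16)) = #S := by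
    rw [hS, card_sigma]
    refine sum_congr rfl fun J _ => ?_
    rw [card_powerset]
  refine ⟨insert 0 (S.image fun z => ((β ^ j * (aa m (z.1 + j) z.2 / β ^ j) : ℕ) : ℤ)), ?_, ?_⟩
  · have h1 : β ^ (J0 + 17) ≤ β ^ 20 * (X / L) := by
      have h2 : 1 ≤ X / L := Nat.div_pos hLX (by omega)
      have h3 : X < L * (X / L + 1) := by
        have := Nat.lt_div_mul_add (a := X) (b := L) (by omega)
        nlinarith
      have h4 : β ^ j * y ≤ X := by
        rw [hy, mul_comm]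
        exact Nat.div_mul_le_self X _
      have h5 : β ^ j * y ≤ β ^ j * (β * (2 * (X / L))) := by
        calc β ^ j * y ≤ X := h4
          _ ≤ L * (X / L + 1) := h3.le
          _ ≤ β ^ (j + 1) * (2 * (X / L)) := Nat.mul_le_mul hj2.le (by omega)
          _ = β ^ j * (β * (2 * (X / L))) := by ring
      have h6 : y ≤ β * (2 * (X / L)) := Nat.le_of_mul_le_mul_left h5 hβj
      calc β ^ (J0 + 17) = β ^ J0 * β ^ 17 := pow_add _ _ _
        _ ≤ y * β ^ 17 := Nat.mul_le_mul_right _ hJ1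
        _ ≤ (β * (2 * (X / L))) * β ^ 17 := Nat.mul_le_mul_right _ h6
        _ ≤ (β * (β * (X / L))) * β ^ 17 :=
            Nat.mul_le_mul_right _ (Nat.mul_le_mul_left _ (Nat.mul_le_mul_right _ hβ1))
        _ = β ^ 19 * (X / L) := by ring
        _ ≤ β ^ 20 * (X / L) :=
            Nat.mul_le_mul_right _ (Nat.pow_le_pow_right (by omega) (by norm_num))
    have h2 := cnt_ge hm J0
    rw [hc, ← hβ] at h2
    have h3 := h2.trans (cnt_mono (AA m) h1)
    have h4 : 1 ≤ #S := by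
      rw [← hc]
      exact le_trans (Nat.one_le_two_pow) (single_le_sum (f := fun J => 2 ^ #(Sn m (J + 16)))
        (fun _ _ => Nat.zero_le _) (mem_range.2 (Nat.succ_pos J0)))
    calc #(insert 0 (S.image fun z => ((β ^ j * (aa m (z.1 + j) z.2 / β ^ j) : ℕ) : ℤ)))
        ≤ #S + 1 := (card_insert_le _ _).trans (Nat.add_le_add_right card_image_le 1)
      _ ≤ 2 * cnt (AA m) (β ^ 20 * (X / L)) := by omega
      _ ≤ β ^ 20 * cnt (AA m) (β ^ 20 * (X / L)) :=
          Nat.mul_le_mul_right _ (hβ1.trans (Nat.le_self_pow (by norm_num) β))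
  · rintro a ⟨⟨n, x, hx, rfl⟩, haX⟩
    have haX' : aa m n x < X := haX
    obtain ⟨hs1, hs2⟩ := aa_size hm hx
    rw [← hβ] at hs1 hs2
    by_cases hnj : n < j
    · refine ⟨0, mem_insert_self _ _, by positivity, ?_⟩
      have h1 : β ^ (n + 1) ≤ β ^ j := Nat.pow_le_pow_right (by omega) hnj
      have h2 : aa m n x < L := by omega
      rw [zero_add]
      exact_mod_cast h2
    · obtain ⟨J, rfl⟩ : ∃ J, n = J + j := ⟨n - j, by omega⟩
      have hJ : J ≤ J0 := by
        rw [hJ0]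
        refine (Nat.le_log_iff_pow_le (by omega) (by omega)).2 ?_
        rw [hy, Nat.le_div_iff_mul_le hβj, ← pow_add]
        omega
      have hpre := pre_eq (J := J) hm hx ((filter_subset (· ≤ J) x).trans hx) (by omega) (by
        intro t ht
        rw [mem_filter]
        exact ⟨fun h => ⟨h, ht⟩, fun h => h.1⟩)
      rw [Nat.add_sub_cancel_left, ← hβ] at hpre
      refine ⟨((β ^ j * (aa m (J + j) x / β ^ j) : ℕ) : ℤ), ?_, ?_, ?_⟩
      · refine mem_insert_of_mem (mem_image.2 ⟨⟨J, x.filter (· ≤ J)⟩, ?_, ?_⟩)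
        · rw [hS, mem_sigma]
          exact ⟨mem_range.2 (by simp only; omega), mem_powerset.2 (Sn_inter hx)⟩
        · simp only
          rw [hpre]
      · exact_mod_cast Nat.mul_div_le _ _
      · have h1 : aa m (J + j) x < β ^ j * (aa m (J + j) x / β ^ j) + β ^ j := by
          have := Nat.lt_div_mul_add (a := aa m (J + j) x) (b := β ^ j) hβj
          rw [mul_comm] at this
          exact this
        have h2 : aa m (J + j) x < β ^ j * (aa m (J + j) x / β ^ j) + L := by omega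
        exact_mod_cast h2

end Pool.Agent.Q208.HT
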