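import Pool.Agent.Q208.HT.D1
import Pool.Agent.Q208.KN.SY

/-!
# Highly twisted links (helper99), job TW: bound of a term at the lattice points
-/

set_option autoImplicit false

namespace Pool.Agent.Q208.HT

open Finset
open Pool.Agent.W719.BS (D D_pos D_refl)
open Pool.Agent.Q99.FAL (bq)
open Pool.Agent.Q99.KN
open Pool.Agent.Q99.HT
open Pool.Agent.Q208.KN (bc_an)

theorem bc_norm {N n m : ℕ} (hn : n < N) (hm : m < N) : ‖bc N n m‖ = bq N n m := by
  rw [bc_val hn hm, Complex.norm_real, Real.norm_eq_abs, abs_of_nonneg (bq_nonneg' hn)]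

theorem bq_self {N n : ℕ} (hn : n < N) : bq N n n = 1 := by
  rw [bq_val hn le_rfl, Nat.sub_self, D0, one_mul, div_self (D_pos N n hn).ne']

theorem zl_m' {N k m : ℕ} (h : k + m + 1 = N) : ((N : ℂ) - 1 - zl N k) / 2 = m := by
  have h1 : (k : ℂ) + m + 1 = N := by exact_mod_cast h
  unfold zl
  linear_combination -h1

theorem zl_neg {N k m : ℕ} (h : k + m + 1 = N) : zl N k = -zl N m := by
  have h1 : (k : ℂ) + m + 1 = N := by exact_mod_cast h
  unfold zl
  linear_combination 2 * h1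

theorem key2 {N n1 n2 u v w : ℕ} (h : n1 + n2 + 1 = N) (hn : n1 = u + v + w) (hA : v + w ≤ n2) :
    bq N n1 (u + v : ℕ) ≤ bq N n1 u * bq N n2 v := by
  have h1 : 1 ≤ bq N (u + v : ℕ) v := d4 (by omega) (by omega)
  have h2 : bq N (v + w : ℕ) v ≤ bq N n2 v :=
    (task_D1 N (by omega)).2.2.2.2 (v + w) n2 v (by omega) hA (by omega) (by omega)
  have p1 := D_pos N n1 (by omega)
  have p2 := D_pos N u (by omega)
  have p3 := D_pos N v (by omega)
  have p4 := D_pos N w (by omega)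
  have p5 := D_pos N (u + v) (by omega)
  have p6 := D_pos N (v + w) (by omega)
  rw [bq_val (by omega) (by omega), show u + v - v = u by omega, one_le_div (by positivity)] at h1
  have h3 : bq N n1 u * bq N (v + w : ℕ) v = D N n1 / (D N w * (D N u * D N v)) := by
    rw [bq_val (by omega) (by omega), bq_val (by omega) (by omega), show n1 - u = v + w by omega,
      show v + w - v = w by omega]
    field_simp
  have h4 : bq N n1 (u + v : ℕ) ≤ D N n1 / (D N w * (D N u * D N v)) := by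
    rw [bq_val (by omega) (by omega), show n1 - (u + v) = w by omega]
    apply div_le_div_of_nonneg_left p1.le (by positivity)
    exact mul_le_mul_of_nonneg_left h1 p4.le
  refine h4.trans (h3.symm.le.trans ?_)
  exact mul_le_mul_of_nonneg_left h2 (bq_nonneg' (by omega))

theorem ml1_nonneg {α : Fin 6 → ℝ} (h : Fr α) (h2 : Acu α) : 0 ≤ ml α 1 := by
  have h3 : ml α 1 = Real.log (Real.tan (Real.pi * α 2) / Real.tan (Real.pi * α 1)) := rfl
  have hpi := Real.pi_pos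
  rw [h3]
  rcases (h.nn 1).eq_or_lt with h0 | h0
  · rw [← h0]
    simp
  · have hs := h.s1
    have h00 := h.nn 0
    have h22 := h.p2
    have h12 := h2.o12
    apply Real.log_nonneg
    have ht1 : 0 < Real.tan (Real.pi * α 1) :=
      Real.tan_pos_of_pos_of_lt_pi_div_two (by positivity) (by nlinarith)
    rw [one_le_div ht1]
    rcases h12.eq_or_lt with h4 | h4
    · rw [h4]
    · exact (Real.tan_lt_tan_of_nonneg_of_lt_pi_div_two (by positivity) (by nlinarith)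
        (mul_lt_mul_of_pos_left h4 hpi)).le

theorem eX_mono {α : Fin 6 → ℝ} (h : Fr α) (h2 : Acu α) (N A C : ℕ) {b b' : ℕ} (hb : b' ≤ b) :
    eX N α A b' C ≤ eX N α A b C := by
  unfold eX
  have h3 := ml1_nonneg h h2
  have h4 : (b' : ℝ) ≤ b := by exact_mod_cast hb
  have := mul_le_mul_of_nonneg_left (sub_le_sub_right h4 (N * (α 1 + α 4))) h3
  linarith

theorem sqN {N x y : ℝ} (hx : 0 ≤ x) (hxN : x ≤ N) (hy : 0 ≤ y) (hy1 : y ≤ 1) :
    (x - N * y) ^ 2 ≤ N ^ 2 := by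
  have hN : 0 ≤ N := hx.trans hxN
  have h1 : 0 ≤ N * y := mul_nonneg hN hy
  have h2 : N * y ≤ N := mul_le_of_le_one_right hN hy1
  apply sq_le_sq'
  · linarith
  · linarith

theorem five {α : Fin 6 → ℝ} (h : Fr α) {N A b C j k : ℕ} (hs : A + b + C < N) (hj : j ≤ b)
    (hk : k < N) : dX N α A b C k + ((j : ℝ) - N * α 1) ^ 2 ≤ 5 * (N : ℝ) ^ 2 := by
  have n0 := h.nn 0
  have n1 := h.nn 1
  have n2 := h.nn 2
  have n3 := h.nn 3
  have n4 := h.nn 4
  have n5 := h.nn 5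
  have s1 := h.s1
  have s2 := h.s2
  have c1 : (A : ℝ) ≤ N := by exact_mod_cast (by omega : A ≤ N)
  have c2 : (b : ℝ) ≤ N := by exact_mod_cast (by omega : b ≤ N)
  have c3 : (C : ℝ) ≤ N := by exact_mod_cast (by omega : C ≤ N)
  have c4 : (k : ℝ) ≤ N := by exact_mod_cast hk.le
  have c5 : (j : ℝ) ≤ N := by exact_mod_cast (by omega : j ≤ N)
  have e1 := sqN (Nat.cast_nonneg A) c1 n0 (by linarith)
  have e2 := sqN (Nat.cast_nonneg b) c2 (by linarith : 0 ≤ α 1 + α 4) (by linarith)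
  have e3 := sqN (Nat.cast_nonneg C) c3 n3 (by linarith)
  have e4 := sqN (Nat.cast_nonneg k) c4 (by norm_num : (0 : ℝ) ≤ 1 / 2) (by norm_num)
  have e5 := sqN (Nat.cast_nonneg j) c5 n1 (by linarith)
  unfold dX
  have : (N : ℝ) * (1 / 2) = N / 2 := by ring
  rw [this] at e4
  linarith

theorem norm6 (a b c d e f : ℂ) :
    ‖a + b + c + d + e + f‖ ≤ ‖a‖ + ‖b‖ + ‖c‖ + ‖d‖ + ‖e‖ + ‖f‖ := by
  have h1 := norm_add_le (a + b + c + d + e) f
  have h2 := norm_add_le (a + b + c + d) e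
  have h3 := norm_add_le (a + b + c) d
  have h4 := norm_add_le (a + b) c
  have h5 := norm_add_le a b
  linarith

/-- derivative of a product of six functions -/
theorem der6 {f1 f2 f3 f4 f5 f6 : ℂ → ℂ} {z : ℂ} (h1 : DifferentiableAt ℂ f1 z)
    (h2 : DifferentiableAt ℂ f2 z) (h3 : DifferentiableAt ℂ f3 z) (h4 : DifferentiableAt ℂ f4 z)
    (h5 : DifferentiableAt ℂ f5 z) (h6 : DifferentiableAt ℂ f6 z) :
    ‖deriv (fun z => f1 z * f2 z * (f3 z * f4 z) * (f5 z * f6 z)) z‖ ≤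
      ‖deriv f1 z‖ * ‖f2 z‖ * ‖f3 z‖ * ‖f4 z‖ * ‖f5 z‖ * ‖f6 z‖ +
      ‖f1 z‖ * ‖deriv f2 z‖ * ‖f3 z‖ * ‖f4 z‖ * ‖f5 z‖ * ‖f6 z‖ +
      ‖f1 z‖ * ‖f2 z‖ * ‖deriv f3 z‖ * ‖f4 z‖ * ‖f5 z‖ * ‖f6 z‖ +
      ‖f1 z‖ * ‖f2 z‖ * ‖f3 z‖ * ‖deriv f4 z‖ * ‖f5 z‖ * ‖f6 z‖ +
      ‖f1 z‖ * ‖f2 z‖ * ‖f3 z‖ * ‖f4 z‖ * ‖deriv f5 z‖ * ‖f6 z‖ +
      ‖f1 z‖ * ‖f2 z‖ * ‖f3 z‖ * ‖f4 z‖ * ‖f5 z‖ * ‖deriv f6 z‖ := by
  have h := (((h1.hasDerivAt.mul h2.hasDerivAt).mul (h3.hasDerivAt.mul h4.hasDerivAt)).mul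
    (h5.hasDerivAt.mul h6.hasDerivAt))
  have h' : HasDerivAt (fun z => f1 z * f2 z * (f3 z * f4 z) * (f5 z * f6 z))
      (deriv f1 z * f2 z * f3 z * f4 z * f5 z * f6 z + f1 z * deriv f2 z * f3 z * f4 z * f5 z * f6 z +
      f1 z * f2 z * deriv f3 z * f4 z * f5 z * f6 z + f1 z * f2 z * f3 z * deriv f4 z * f5 z * f6 z +
      f1 z * f2 z * f3 z * f4 z * deriv f5 z * f6 z +
      f1 z * f2 z * f3 z * f4 z * f5 z * deriv f6 z) z := by
    refine HasDerivAt.congr_deriv h ?_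
    simp only [Pi.mul_apply]
    ring
  rw [h'.deriv]
  refine (norm6 _ _ _ _ _ _).trans (le_of_eq ?_)
  simp only [norm_mul]

theorem bound6 {a1 a2 a3 a4 a5 a6 e1 e2 e3 e4 e5 e6 M : ℝ} (h1 : 0 ≤ a1) (h2 : 0 ≤ a2)
    (h3 : 0 ≤ a3) (h4 : 0 ≤ a4) (h5 : 0 ≤ a5) (h6 : 0 ≤ a6) (g1 : e1 ≤ M * a1) (g2 : e2 ≤ M * a2)
    (g3 : e3 ≤ M * a3) (g4 : e4 ≤ M * a4) (g5 : e5 ≤ M * a5) (g6 : e6 ≤ M * a6) :
    e1 * a2 * a3 * a4 * a5 * a6 + a1 * e2 * a3 * a4 * a5 * a6 + a1 * a2 * e3 * a4 * a5 * a6 +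
    a1 * a2 * a3 * e4 * a5 * a6 + a1 * a2 * a3 * a4 * e5 * a6 + a1 * a2 * a3 * a4 * a5 * e6 ≤
      6 * M * (a1 * a2 * (a3 * a4) * (a5 * a6)) := by
  have q1 : e1 * a2 * a3 * a4 * a5 * a6 ≤ M * a1 * a2 * a3 * a4 * a5 * a6 := by gcongr
  have q2 : a1 * e2 * a3 * a4 * a5 * a6 ≤ a1 * (M * a2) * a3 * a4 * a5 * a6 := by gcongr
  have q3 : a1 * a2 * e3 * a4 * a5 * a6 ≤ a1 * a2 * (M * a3) * a4 * a5 * a6 := by gcongr
  have q4 : a1 * a2 * a3 * e4 * a5 * a6 ≤ a1 * a2 * a3 * (M * a4) * a5 * a6 := by gcongr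
  have q5 : a1 * a2 * a3 * a4 * e5 * a6 ≤ a1 * a2 * a3 * a4 * (M * a5) * a6 := by gcongr
  have q6 : a1 * a2 * a3 * a4 * a5 * e6 ≤ a1 * a2 * a3 * a4 * a5 * (M * a6) := by gcongr
  linarith

theorem sq3 {x y t s u n : ℝ} (h : x - y - t = -n) :
    n ^ 2 / 3 ≤ y ^ 2 + s ^ 2 + u ^ 2 + x ^ 2 + t ^ 2 := by
  have h1 : n ^ 2 = (x - y - t) ^ 2 := by rw [h]; ring
  rw [h1]
  nlinarith [sq_nonneg (x + y), sq_nonneg (x + t), sq_nonneg (y - t), sq_nonneg s, sq_nonneg u]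

theorem sq4 {x y s t u n : ℝ} (h : x + y + s - t = n - 1) :
    n ^ 2 / 8 - 1 / 4 ≤ u ^ 2 + s ^ 2 + y ^ 2 + x ^ 2 + t ^ 2 := by
  have h1 : (x + y + s - t) ^ 2 ≤ 4 * (x ^ 2 + y ^ 2 + s ^ 2 + t ^ 2) := by
    nlinarith [sq_nonneg (x - y), sq_nonneg (x - s), sq_nonneg (x + t), sq_nonneg (y - s),
      sq_nonneg (y + t), sq_nonneg (s + t)]
  rw [h] at h1
  nlinarith [sq_nonneg u, sq_nonneg (n - 2)]

theorem one_le25 {x : ℝ} (h : 1 ≤ x) : 1 ≤ 25 * x ^ 2 := by nlinarith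

theorem quarter {κ x : ℝ} (hκ : 0 < κ) (h : 1 ≤ x) : κ / 4 / x ≤ κ := by
  rw [div_div, div_le_iff₀ (by positivity)]
  nlinarith

theorem dX_nonneg (N : ℕ) (α : Fin 6 → ℝ) (A b C k : ℕ) : 0 ≤ dX N α A b C k := by
  unfold dX
  positivity

theorem task_TW : S_TW := by
  intro _ hTG hT1 α hFr hAcu
  obtain ⟨C0, κ, hκ, hTG⟩ := hTG hT1 α hFr
  obtain ⟨κ', hκ'⟩ : ∃ κ', κ' = min κ (min (κ * (α 2) ^ 2 / 15) (κ * (α 5) ^ 2 / 40)) := ⟨_, rfl⟩
  have hp2 := hFr.p2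
  have hp5 := hFr.p5
  have hκ0 : 0 < κ' := by
    rw [hκ']
    exact lt_min hκ (lt_min (by positivity) (by positivity))
  have hκ1 : κ' ≤ κ := by rw [hκ']; exact min_le_left _ _
  have hκ2 : κ' ≤ κ * (α 2) ^ 2 / 15 := by
    rw [hκ']; exact (min_le_right _ _).trans (min_le_left _ _)
  have hκ3 : κ' ≤ κ * (α 5) ^ 2 / 40 := by
    rw [hκ']; exact (min_le_right _ _).trans (min_le_right _ _)
  refine ⟨25 * |C0| * Real.exp κ, κ', hκ0, fun N A b C j k hs hC hj hk hAk hAk2 hCk hCk2 => ?_⟩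
  obtain ⟨m, hm⟩ : ∃ m, m = N - 1 - k := ⟨_, rfl⟩
  have hkm : k + m + 1 = N := by omega
  have hmN : m < N := by omega
  have hN : 0 < N := by omega
  have hN0 : (0 : ℝ) < N := by exact_mod_cast hN
  have hN1 : (1 : ℝ) ≤ N := by exact_mod_cast hN
  have hzl := zl_neg hkm
  obtain ⟨X, hX⟩ : ∃ X, X = eX N α A b C - κ' * (dX N α A b C k + ((j : ℝ) - N * α 1) ^ 2) / N :=
    ⟨_, rfl⟩
  rw [← hX]
  have fin : ∀ {Q E : ℝ}, Q ≤ C0 * Real.exp E → E ≤ X + κ →
      25 * (N : ℝ) ^ 2 * Q ≤ 25 * |C0| * Real.exp κ * N ^ 2 * Real.exp X := by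
    intro Q E h1 h2
    have h3 : C0 * Real.exp E ≤ |C0| * Real.exp E :=
      mul_le_mul_of_nonneg_right (le_abs_self _) (Real.exp_pos _).le
    have h4 : Real.exp E ≤ Real.exp X * Real.exp κ := by
      rw [← Real.exp_add]
      exact Real.exp_le_exp.2 h2
    have h5 : |C0| * Real.exp E ≤ |C0| * (Real.exp X * Real.exp κ) :=
      mul_le_mul_of_nonneg_left h4 (abs_nonneg _)
    have h6 : Q ≤ |C0| * (Real.exp X * Real.exp κ) := h1.trans (h3.trans h5)
    calc 25 * (N : ℝ) ^ 2 * Q ≤ 25 * (N : ℝ) ^ 2 * (|C0| * (Real.exp X * Real.exp κ)) :=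
          mul_le_mul_of_nonneg_left h6 (by positivity)
      _ = _ := by ring
  have hfive := five hFr hs hj hk
  -- the loss for the wall terms
  have hloss : κ' * (dX N α A b C k + ((j : ℝ) - N * α 1) ^ 2) / N ≤ κ' * (5 * N) := by
    rw [div_le_iff₀ hN0]
    calc κ' * (dX N α A b C k + ((j : ℝ) - N * α 1) ^ 2) ≤ κ' * (5 * (N : ℝ) ^ 2) :=
          mul_le_mul_of_nonneg_left hfive hκ0.le
      _ = _ := by ring
  have P2 : ∀ x : ℕ, x ≤ k → ‖deriv (fun z : ℂ => bc N ((N - 1 + z) / 2) x) (zl N k)‖ ≤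
      4 * N ^ 2 * bq N k x := fun x hx => by
    rw [der_p]
    exact d2 hk hx
  have M2 : ∀ x : ℕ, x ≤ m → ‖deriv (fun z : ℂ => bc N ((N - 1 - z) / 2) x) (zl N k)‖ ≤
      4 * N ^ 2 * bq N m x := fun x hx => by
    rw [hzl, der_m]
    exact d2 hmN hx
  have P3 : ∀ x : ℕ, k < x → x < N → ‖deriv (fun z : ℂ => bc N ((N - 1 + z) / 2) x) (zl N k)‖ *
      bq N m (x - k : ℕ) ≤ 1 := fun x hx hxN => by
    have h1 := d3 (N := N) hx hxN
    rw [← hm] at h1
    rw [der_p]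
    exact h1
  have M3 : ∀ x : ℕ, m < x → x < N → ‖deriv (fun z : ℂ => bc N ((N - 1 - z) / 2) x) (zl N k)‖ *
      bq N k (x - m : ℕ) ≤ 1 := fun x hx hxN => by
    have h1 := d3 (N := N) hx hxN
    rw [show N - 1 - m = k by omega] at h1
    rw [hzl, der_m]
    exact h1
  -- the derivative
  have g1 : Differentiable ℂ (fun z : ℂ => ((N : ℂ) - 1 + z) / 2) := by fun_prop
  have g2 : Differentiable ℂ (fun z : ℂ => ((N : ℂ) - 1 - z) / 2) := by fun_prop
  have hder := der6 (z := zl N k) (bc_an N A g2).differentiableAt (bc_an N C g1).differentiableAt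
    (bc_an N j g1).differentiableAt (bc_an N (b - j) g2).differentiableAt
    (bc_an N (A + j) g1).differentiableAt (bc_an N (C + (b - j)) g2).differentiableAt
  have hval : ‖Tm N (zl N k) A b C j‖ = bq N m A * bq N k C * (bq N k j * bq N m (b - j : ℕ)) *
      (bq N k (A + j : ℕ) * bq N m (C + (b - j) : ℕ)) := by
    unfold Tm
    rw [zl_p, zl_m' hkm]
    simp only [norm_mul]
    rw [bc_norm hmN (by omega : A < N), bc_norm hk (by omega : C < N), bc_norm hk (by omega : j < N),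
      bc_norm hmN (by omega : b - j < N), bc_norm hk (by omega : A + j < N),
      bc_norm hmN (by omega : C + (b - j) < N)]
  have hTm : (fun z => Tm N z A b C j) = fun z : ℂ => bc N ((N - 1 - z) / 2) A *
      bc N ((N - 1 + z) / 2) C * (bc N ((N - 1 + z) / 2) j * bc N ((N - 1 - z) / 2) (b - j)) *
      (bc N ((N - 1 + z) / 2) (A + j) * bc N ((N - 1 - z) / 2) (C + (b - j))) := rfl
  rw [← hTm, zl_p, zl_m' hkm, bc_norm hmN (by omega : A < N), bc_norm hk (by omega : C < N),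
    bc_norm hk (by omega : j < N), bc_norm hmN (by omega : b - j < N),
    bc_norm hk (by omega : A + j < N), bc_norm hmN (by omega : C + (b - j) < N)] at hder
  obtain ⟨a1, ha1⟩ : ∃ a, a = bq N m A := ⟨_, rfl⟩
  obtain ⟨a2, ha2⟩ : ∃ a, a = bq N k C := ⟨_, rfl⟩
  obtain ⟨a3, ha3⟩ : ∃ a, a = bq N k j := ⟨_, rfl⟩
  obtain ⟨a4, ha4⟩ : ∃ a, a = bq N m (b - j : ℕ) := ⟨_, rfl⟩
  obtain ⟨a5, ha5⟩ : ∃ a, a = bq N k (A + j : ℕ) := ⟨_, rfl⟩
  obtain ⟨a6, ha6⟩ : ∃ a, a = bq N m (C + (b - j) : ℕ) := ⟨_, rfl⟩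
  have q1 : 0 ≤ a1 := by rw [ha1]; exact bq_nonneg' hmN
  have q2 : 0 ≤ a2 := by rw [ha2]; exact bq_nonneg' hk
  have q3 : 0 ≤ a3 := by rw [ha3]; exact bq_nonneg' hk
  have q4 : 0 ≤ a4 := by rw [ha4]; exact bq_nonneg' hmN
  have q5 : 0 ≤ a5 := by rw [ha5]; exact bq_nonneg' hk
  have q6 : 0 ≤ a6 := by rw [ha6]; exact bq_nonneg' hmN
  rw [← ha1, ← ha2, ← ha3, ← ha4, ← ha5, ← ha6] at hval hder
  obtain ⟨e1, he1⟩ : ∃ e, e = ‖deriv (fun z : ℂ => bc N ((N - 1 - z) / 2) A) (zl N k)‖ := ⟨_, rfl⟩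
  obtain ⟨e2, he2⟩ : ∃ e, e = ‖deriv (fun z : ℂ => bc N ((N - 1 + z) / 2) C) (zl N k)‖ := ⟨_, rfl⟩
  obtain ⟨e3, he3⟩ : ∃ e, e = ‖deriv (fun z : ℂ => bc N ((N - 1 + z) / 2) j) (zl N k)‖ := ⟨_, rfl⟩
  obtain ⟨e4, he4⟩ : ∃ e, e = ‖deriv (fun z : ℂ => bc N ((N - 1 - z) / 2) (b - j)) (zl N k)‖ :=
    ⟨_, rfl⟩
  obtain ⟨e5, he5⟩ : ∃ e, e = ‖deriv (fun z : ℂ => bc N ((N - 1 + z) / 2) (A + j)) (zl N k)‖ :=
    ⟨_, rfl⟩
  obtain ⟨e6, he6⟩ : ∃ e, e = ‖deriv (fun z : ℂ => bc N ((N - 1 - z) / 2) (C + (b - j)))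
    (zl N k)‖ := ⟨_, rfl⟩
  rw [← he1, ← he2, ← he3, ← he4, ← he5, ← he6] at hder
  have z5 : k < A + j → a5 = 0 := fun h => by rw [ha5]; exact bq_zero h
  have z6 : m < C + (b - j) → a6 = 0 := fun h => by rw [ha6]; exact bq_zero h
  have hgoal0 : 0 ≤ 25 * |C0| * Real.exp κ * (N : ℝ) ^ 2 * Real.exp X := by positivity
  rcases lt_or_ge k (A + j) with c5 | c5
  · rcases lt_or_ge m (C + (b - j)) with c6 | c6
    · -- both vanish
      rw [z5 c5, z6 c6] at hval hder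
      simp only [mul_zero, zero_mul, add_zero] at hval hder
      rw [hval]
      linarith only [hder, hgoal0]
    rcases lt_or_ge k j with c3 | c3
    · have z3 : a3 = 0 := by rw [ha3]; exact bq_zero c3
      rw [z5 c5, z3] at hval hder
      simp only [mul_zero, zero_mul, add_zero] at hval hder
      rw [hval]
      linarith only [hder, hgoal0]
    -- the first wall
    obtain ⟨v, hv⟩ : ∃ v, v = A + j - k := ⟨_, rfl⟩
    have hv1 : 1 ≤ v := by omega
    have h5 := P3 (A + j) c5 (by omega)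
    rw [← hv, ← he5] at h5
    have h3 : a3 ≤ bq N k (j - v : ℕ) * bq N m v := by
      have h6 := key2 (N := N) (n1 := k) (n2 := m) (u := j - v) (v := v) (w := A - v) hkm (by omega)
        (by omega)
      rw [show j - v + v = j by omega] at h6
      rw [ha3]
      exact h6
    have hTG2 := hTG N k m A (b - v) C (j - v) hkm (by omega)
      ⟨hC.1, fun h => by have := hC.2.1 h; omega, hC.2.2⟩
    rw [show b - v - (j - v) = b - j by omega, show A + (j - v) = k by omega, bq_self hk, ← ha1,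
      ← ha2, ← ha4, ← ha6, one_mul] at hTG2
    rw [z5 c5] at hval hder
    simp only [mul_zero, zero_mul, add_zero, zero_add] at hval hder
    rw [hval, zero_add]
    have hb1 : 0 ≤ bq N k (j - v : ℕ) := bq_nonneg' hk
    have he5' : 0 ≤ e5 := by rw [he5]; exact norm_nonneg _
    have h7 : a3 * e5 ≤ bq N k (j - v : ℕ) := by
      calc a3 * e5 ≤ bq N k (j - v : ℕ) * bq N m v * e5 := mul_le_mul_of_nonneg_right h3 he5'
        _ = bq N k (j - v : ℕ) * (e5 * bq N m v) := by ring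
        _ ≤ bq N k (j - v : ℕ) * 1 := mul_le_mul_of_nonneg_left h5 hb1
        _ = _ := mul_one _
    have h8 : a1 * a2 * a3 * a4 * e5 * a6 ≤ a1 * a2 * (bq N k (j - v : ℕ) * a4) * a6 := by
      calc a1 * a2 * a3 * a4 * e5 * a6 = a1 * a2 * ((a3 * e5) * a4) * a6 := by ring
        _ ≤ _ := by gcongr
    refine hder.trans (h8.trans ?_)
    have h9 : a1 * a2 * (bq N k (j - v : ℕ) * a4) * a6 ≤
        25 * (N : ℝ) ^ 2 * (a1 * a2 * (bq N k (j - v : ℕ) * a4) * a6) := by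
      exact le_mul_of_one_le_left (by positivity) (one_le25 hN1)
    refine h9.trans (fin hTG2 ?_)
    have h10 := eX_mono hFr hAcu N A C (show b - v ≤ b by omega)
    have h11 : (N * α 2) ^ 2 / 3 ≤ dX N α A (b - v) C k + (((j - v : ℕ) : ℝ) - N * α 1) ^ 2 := by
      have r1 : ((j - v : ℕ) : ℝ) = k - A := by
        rw [show j - v = k - A by omega, Nat.cast_sub hAk]
      have r2 : (k : ℝ) - N / 2 - (A - N * α 0) - (((j - v : ℕ) : ℝ) - N * α 1) = -(N * α 2) := by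
        rw [r1]
        have := hFr.s1
        linear_combination (N : ℝ) * this
      unfold dX
      exact sq3 r2
    have h12 : κ * ((N * α 2) ^ 2 / 3) / N ≤
        κ * (dX N α A (b - v) C k + (((j - v : ℕ) : ℝ) - N * α 1) ^ 2) / N := by
      apply div_le_div_of_nonneg_right _ hN0.le
      exact mul_le_mul_of_nonneg_left h11 hκ.le
    have h13 : κ * ((N * α 2) ^ 2 / 3) / N = N * (κ * α 2 ^ 2 / 3) := by
      field_simp
    have h14 : κ' * (5 * N) ≤ N * (κ * α 2 ^ 2 / 3) := by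
      have := mul_le_mul_of_nonneg_right hκ2 (by positivity : (0 : ℝ) ≤ 5 * N)
      linarith only [this]
    rw [hX]
    linarith only [h10, h12, h13, h14, hloss, hκ]
  · rcases lt_or_ge m (C + (b - j)) with c6 | c6
    · rcases lt_or_ge m (b - j) with c4 | c4
      · have z4 : a4 = 0 := by rw [ha4]; exact bq_zero c4
        rw [z6 c6, z4] at hval hder
        simp only [mul_zero, zero_mul, add_zero] at hval hder
        rw [hval]
        linarith only [hder, hgoal0]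
      -- the second wall
      obtain ⟨v, hv⟩ : ∃ v, v = C + (b - j) - m := ⟨_, rfl⟩
      have hv1 : 1 ≤ v := by omega
      have h5 := M3 (C + (b - j)) c6 (by omega)
      rw [← hv, ← he6] at h5
      have h3 : a4 ≤ bq N m (b - j - v : ℕ) * bq N k v := by
        have h6 := key2 (N := N) (n1 := m) (n2 := k) (u := b - j - v) (v := v) (w := C - v)
          (by omega) (by omega) (by omega)
        rw [show b - j - v + v = b - j by omega] at h6
        rw [ha4]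
        exact h6
      have hTG2 := hTG N k m A (b - v) C j hkm (by omega)
        ⟨hC.1, fun h => by have := hC.2.1 h; omega, hC.2.2⟩
      rw [show C + (b - v - j) = m by omega, show b - v - j = b - j - v by omega, bq_self hmN,
        ← ha1, ← ha2, ← ha3, ← ha5, mul_one] at hTG2
      rw [z6 c6] at hval hder
      simp only [mul_zero, zero_add] at hval hder
      rw [hval, zero_add]
      have hb1 : 0 ≤ bq N m (b - j - v : ℕ) := bq_nonneg' hmN
      have he6' : 0 ≤ e6 := by rw [he6]; exact norm_nonneg _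
      have h7 : a4 * e6 ≤ bq N m (b - j - v : ℕ) := by
        calc a4 * e6 ≤ bq N m (b - j - v : ℕ) * bq N k v * e6 := mul_le_mul_of_nonneg_right h3 he6'
          _ = bq N m (b - j - v : ℕ) * (e6 * bq N k v) := by ring
          _ ≤ bq N m (b - j - v : ℕ) * 1 := mul_le_mul_of_nonneg_left h5 hb1
          _ = _ := mul_one _
      have h8 : a1 * a2 * a3 * a4 * a5 * e6 ≤ a1 * a2 * (a3 * bq N m (b - j - v : ℕ)) * a5 := by
        calc a1 * a2 * a3 * a4 * a5 * e6 = a1 * a2 * (a3 * (a4 * e6)) * a5 := by ring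
          _ ≤ _ := by gcongr
      refine hder.trans (h8.trans ?_)
      have h9 : a1 * a2 * (a3 * bq N m (b - j - v : ℕ)) * a5 ≤
          25 * (N : ℝ) ^ 2 * (a1 * a2 * (a3 * bq N m (b - j - v : ℕ)) * a5) := by
        exact le_mul_of_one_le_left (by positivity) (one_le25 hN1)
      refine h9.trans (fin hTG2 ?_)
      have h10 := eX_mono hFr hAcu N A C (show b - v ≤ b by omega)
      have h11 : (N * α 5) ^ 2 / 8 - 1 / 4 ≤ dX N α A (b - v) C k + ((j : ℝ) - N * α 1) ^ 2 := by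
        have r1 : ((b - v : ℕ) : ℝ) = m - C + j := by
          have : b - v + C = m + j := by omega
          have h' : ((b - v : ℕ) : ℝ) + C = m + j := by exact_mod_cast this
          linear_combination h'
        have r3 : (k : ℝ) + m + 1 = N := by exact_mod_cast hkm
        have r2 : ((k : ℝ) - N / 2) + (C - N * α 3) + (((b - v : ℕ) : ℝ) - N * (α 1 + α 4)) -
            (j - N * α 1) = N * α 5 - 1 := by
          rw [r1]
          have := hFr.s2
          linear_combination r3 - (N : ℝ) * this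
        unfold dX
        exact sq4 r2
      have h12 : κ * ((N * α 5) ^ 2 / 8 - 1 / 4) / N ≤
          κ * (dX N α A (b - v) C k + ((j : ℝ) - N * α 1) ^ 2) / N := by
        apply div_le_div_of_nonneg_right _ hN0.le
        exact mul_le_mul_of_nonneg_left h11 hκ.le
      have h13 : κ * ((N * α 5) ^ 2 / 8 - 1 / 4) / N = N * (κ * α 5 ^ 2 / 8) - κ / 4 / N := by
        field_simp
      have h15 : κ / 4 / N ≤ κ := quarter hκ hN1
      have h14 : κ' * (5 * N) ≤ N * (κ * α 5 ^ 2 / 8) := by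
        have := mul_le_mul_of_nonneg_right hκ3 (by positivity : (0 : ℝ) ≤ 5 * N)
        linarith only [this]
      rw [hX]
      linarith only [h10, h12, h13, h14, h15, hloss, hκ]
    · -- no bracket vanishes
      have f1 : e1 ≤ 4 * N ^ 2 * a1 := by rw [he1, ha1]; exact M2 A (by omega)
      have f2 : e2 ≤ 4 * N ^ 2 * a2 := by rw [he2, ha2]; exact P2 C (by omega)
      have f3 : e3 ≤ 4 * N ^ 2 * a3 := by rw [he3, ha3]; exact P2 j (by omega)
      have f4 : e4 ≤ 4 * N ^ 2 * a4 := by rw [he4, ha4]; exact M2 (b - j) (by omega)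
      have f5 : e5 ≤ 4 * N ^ 2 * a5 := by rw [he5, ha5]; exact P2 (A + j) c5
      have f6 : e6 ≤ 4 * N ^ 2 * a6 := by rw [he6, ha6]; exact M2 (C + (b - j)) c6
      have h1 := bound6 q1 q2 q3 q4 q5 q6 f1 f2 f3 f4 f5 f6
      have hTG2 := hTG N k m A b C j hkm hj hC
      rw [← ha1, ← ha2, ← ha3, ← ha4, ← ha5, ← ha6] at hTG2
      have hP : 0 ≤ a1 * a2 * (a3 * a4) * (a5 * a6) := by positivity
      have h2 : a1 * a2 * (a3 * a4) * (a5 * a6) ≤ N ^ 2 * (a1 * a2 * (a3 * a4) * (a5 * a6)) := by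
        exact le_mul_of_one_le_left hP (one_le_pow₀ hN1)
      have h3 := fin hTG2 (by
        rw [hX]
        have h4 : κ' * (dX N α A b C k + ((j : ℝ) - N * α 1) ^ 2) / N ≤
            κ * (dX N α A b C k + ((j : ℝ) - N * α 1) ^ 2) / N := by
          apply div_le_div_of_nonneg_right _ hN0.le
          exact mul_le_mul_of_nonneg_right hκ1 (add_nonneg (dX_nonneg _ _ _ _ _ _) (sq_nonneg _))
        linarith only [h4, hκ])
      rw [hval]
      linarith only [hder, h1, h2, h3]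

end Pool.Agent.Q208.HT
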