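import Pool.Agent.Q208.HT.Cod
import Pool.Agent.Q123.ET.Scales

/-!
# The windows
-/

set_option autoImplicit false

namespace Pool.Agent.Q208.HT

open Finset

/-- the allowed depths -/
def Tm (m t : ℕ) : Prop := 2 ^ (Nat.log 2 t / m + 5) ∣ t

instance decTm (m : ℕ) : DecidablePred (Tm m) := fun t => by unfold Tm; infer_instance

/-- the depths of the bits of the numbers of size `n` -/
def Sn (m n : ℕ) : Finset ℕ := (Icc 1 (n - 16)).filter (Tm m)

/-- the ratio of the lengths of the windows -/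
def ww (m n : ℕ) : ℕ := 2 ^ ((Nat.log 2 n - 2) / m + 2)

/-- the ends of the windows -/
def Dd (m n i : ℕ) : ℕ := if i ≤ m then max (n - 16 * ww m n ^ i) (n / 4) else 0

/-- the steps in the windows -/
def Qs (m n i : ℕ) : ℕ := if i < m then 8 * ww m n else 1

/-- the window -/
def Wd (m n i : ℕ) (x : Finset ℕ) : Finset ℕ := x.filter (fun t => Dd m n (i + 1) < t ∧ t ≤ Dd m n i)

/-- the content of a window -/
def Xx (m n i : ℕ) (x : Finset ℕ) : ℕ := ∑ t ∈ Wd m n i x, 2 ^ ((Dd m n i - t) / Qs m n i)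

theorem ww_pos (m n : ℕ) : 0 < ww m n := by unfold ww; positivity

theorem Qs_pos (m n i : ℕ) : 0 < Qs m n i := by
  unfold Qs
  have := ww_pos m n
  split_ifs <;> omega

theorem ww_pow {m : ℕ} (hm : 1 ≤ m) (n : ℕ) : n ≤ 16 * ww m n ^ m := by
  have h1 : n < 2 ^ (Nat.log 2 n + 1) := Nat.lt_pow_succ_log_self (by norm_num) n
  have h2 : Nat.log 2 n ≤ ((Nat.log 2 n - 2) / m + 2) * m := by
    have h3 := Nat.lt_div_mul_add (a := Nat.log 2 n - 2) (b := m) (by omega)
    have h4 : ((Nat.log 2 n - 2) / m + 2) * m = (Nat.log 2 n - 2) / m * m + 2 * m := by ring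
    omega
  unfold ww
  rw [← pow_mul]
  have h5 : 2 ^ Nat.log 2 n ≤ 2 ^ (((Nat.log 2 n - 2) / m + 2) * m) :=
    Nat.pow_le_pow_right (by norm_num) h2
  rw [pow_succ] at h1
  omega

theorem Dd_top {m : ℕ} (hm : 1 ≤ m) (n : ℕ) : Dd m n m = n / 4 := by
  have h := ww_pow hm n
  unfold Dd
  rw [if_pos le_rfl, Nat.sub_eq_zero_of_le h]
  exact max_eq_right (Nat.zero_le _)

theorem Dd_ge {m n i : ℕ} (hi : i ≤ m) : n / 4 ≤ Dd m n i := by
  unfold Dd
  rw [if_pos hi]
  exact le_max_right _ _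

theorem Dd_end (m n : ℕ) : Dd m n (m + 1) = 0 := by
  unfold Dd
  rw [if_neg (by omega)]

/-- every depth lies in a window -/
theorem exists_window {m n t : ℕ} (ht1 : 1 ≤ t) (ht : t ≤ n - 16) :
    ∃ i ≤ m, Dd m n (i + 1) < t ∧ t ≤ Dd m n i := by
  have key : ∀ j, j ≤ m → (∃ i ≤ m, Dd m n (i + 1) < t ∧ t ≤ Dd m n i) ∨ t ≤ Dd m n j := by
    intro j
    induction j with
    | zero =>
      intro _
      right
      unfold Dd
      rw [if_pos (Nat.zero_le _), pow_zero, mul_one]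
      exact ht.trans (le_max_left _ _)
    | succ j ih =>
      intro hj
      rcases ih (by omega) with h | h
      · exact Or.inl h
      · by_cases h2 : t ≤ Dd m n (j + 1)
        · exact Or.inr h2
        · exact Or.inl ⟨j, by omega, by omega, h⟩
  rcases key m le_rfl with h | h
  · exact h
  · exact ⟨m, le_rfl, by rw [Dd_end]; omega, h⟩

theorem Qs_dvd {m n i t : ℕ} (ht : Tm m t) (ht1 : 1 ≤ t)
    (htD : Dd m n (i + 1) < t) : Qs m n i ∣ t := by
  unfold Qs
  by_cases h : i < m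
  · rw [if_pos h]
    have h1 : n / 4 < t := lt_of_le_of_lt (Dd_ge (show i + 1 ≤ m by omega)) htD
    have h2 : n ≤ 4 * t := by omega
    have h3 : Nat.log 2 n ≤ Nat.log 2 t + 2 := by
      refine (Nat.log_mono_right h2).trans ?_
      have h4 : 4 * t = t * 2 * 2 := by ring
      rw [h4, Nat.log_mul_base (by norm_num) (by omega), Nat.log_mul_base (by norm_num) (by omega)]
    have h5 : (Nat.log 2 n - 2) / m ≤ Nat.log 2 t / m := Nat.div_le_div_right (by omega)
    have h6 : 8 * ww m n = 2 ^ ((Nat.log 2 n - 2) / m + 5) := by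
      unfold ww
      rw [pow_add, pow_add]
      ring
    rw [h6]
    exact (pow_dvd_pow 2 (by omega)).trans ht
  · rw [if_neg h]
    exact one_dvd t

theorem div_inj {Q D t t' : ℕ} (hQ : 0 < Q) (h1 : Q ∣ t) (h2 : Q ∣ t') (ht : t ≤ D) (ht' : t' ≤ D)
    (h : (D - t) / Q = (D - t') / Q) : t = t' := by
  obtain ⟨a, rfl⟩ := h1
  obtain ⟨b, rfl⟩ := h2
  rw [Nat.sub_mul_div, Nat.sub_mul_div] at h
  have ha : a ≤ D / Q := (Nat.le_div_iff_mul_le hQ).2 (by rw [mul_comm]; exact ht)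
  have hb : b ≤ D / Q := (Nat.le_div_iff_mul_le hQ).2 (by rw [mul_comm]; exact ht')
  have : a = b := by omega
  rw [this]

section

variable {m n : ℕ} (hm : 1 ≤ m) {x : Finset ℕ} (hx : x ⊆ Sn m n)

include hm hx

theorem inj_window {i : ℕ} (hi : i ≤ m) :
    Set.InjOn (fun t => (Dd m n i - t) / Qs m n i) (Wd m n i x : Set ℕ) := by
  intro t ht t' ht' h
  rw [mem_coe, Wd, mem_filter] at ht ht'
  have h1 := mem_filter.1 (hx ht.1)
  have h2 := mem_filter.1 (hx ht'.1)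
  exact div_inj (Qs_pos m n i) (Qs_dvd h1.2 (mem_Icc.1 h1.1).1 ht.2.1)
    (Qs_dvd h2.2 (mem_Icc.1 h2.1).1 ht'.2.1) ht.2.2 ht'.2.2 h

theorem Xx_eq {i : ℕ} (hi : i ≤ m) :
    Xx m n i x = ∑ k ∈ (Wd m n i x).image (fun t => (Dd m n i - t) / Qs m n i), 2 ^ k := by
  rw [sum_image (inj_window hm hx hi)]
  rfl

theorem Xx_lt {i : ℕ} (hi : i ≤ m) : Xx m n i x ^ 2 < 2 ^ (n - Dd m n i) := by
  rcases (Wd m n i x).eq_empty_or_nonempty with h | ⟨t, ht⟩
  · unfold Xx
    rw [h]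
    simp
  · rw [Wd, mem_filter] at ht
    have h1 := mem_Icc.1 (mem_filter.1 (hx ht.1)).1
    have hlt : Dd m n (i + 1) < Dd m n i := lt_of_lt_of_le ht.2.1 ht.2.2
    have hX : Xx m n i x < 2 ^ ((Dd m n i - Dd m n (i + 1)) / Qs m n i + 1) := by
      rw [Xx_eq hm hx hi]
      refine Nat.geomSum_lt le_rfl fun k hk => ?_
      obtain ⟨t', ht', rfl⟩ := mem_image.1 hk
      rw [Wd, mem_filter] at ht'
      refine Nat.lt_succ_of_le (Nat.div_le_div_right ?_)
      omega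
    have hb : 2 * ((Dd m n i - Dd m n (i + 1)) / Qs m n i + 1) ≤ n - Dd m n i := by
      by_cases h : i < m
      · have h2 := Dd_ge (m := m) (n := n) (show i + 1 ≤ m by omega)
        have h3 : Dd m n i = n - 16 * ww m n ^ i := by
          unfold Dd
          rw [if_pos hi]
          refine max_eq_left ?_
          by_contra hcon
          have h4 : Dd m n i = n / 4 := by
            unfold Dd
            rw [if_pos hi]
            exact max_eq_right (by omega)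
          omega
        have h5 : n - 16 * ww m n ^ (i + 1) ≤ Dd m n (i + 1) := by
          unfold Dd
          rw [if_pos (by omega)]
          exact le_max_left _ _
        have h6 : Qs m n i = 8 * ww m n := by
          unfold Qs
          rw [if_pos h]
        have h7 : Dd m n i - Dd m n (i + 1) ≤ 16 * ww m n ^ (i + 1) := by omega
        have h8 : (Dd m n i - Dd m n (i + 1)) / Qs m n i ≤ 2 * ww m n ^ i := by
          rw [h6]
          refine Nat.div_le_of_le_mul ?_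
          refine h7.trans (le_of_eq ?_)
          rw [pow_succ]
          ring
        have h9 : 0 < ww m n ^ i := pow_pos (ww_pos m n) i
        omega
      · have him : i = m := by omega
        subst him
        rw [Dd_end, Dd_top hm]
        have : Qs i n i = 1 := by
          unfold Qs
          rw [if_neg (lt_irrefl _)]
        rw [this, Nat.div_one]
        omega
    calc Xx m n i x ^ 2 < (2 ^ ((Dd m n i - Dd m n (i + 1)) / Qs m n i + 1)) ^ 2 :=
          Nat.pow_lt_pow_left hX (by norm_num)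
      _ = 2 ^ (2 * ((Dd m n i - Dd m n (i + 1)) / Qs m n i + 1)) := by
          rw [← pow_mul, mul_comm]
      _ ≤ 2 ^ (n - Dd m n i) := Nat.pow_le_pow_right (by norm_num) hb

theorem Xx_inj {x' : Finset ℕ} (hx' : x' ⊆ Sn m n) (h : ∀ i ≤ m, Xx m n i x = Xx m n i x') :
    x ⊆ x' := by
  intro t ht
  have h1 := mem_filter.1 (hx ht)
  have h2 := mem_Icc.1 h1.1
  obtain ⟨i, hi, hD1, hD2⟩ := exists_window (m := m) h2.1 h2.2
  have h3 := h i hi
  rw [Xx_eq hm hx hi, Xx_eq hm hx' hi] at h3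
  have h4 := geomSum_injective (le_refl 2) h3
  have h5 : (Dd m n i - t) / Qs m n i ∈ (Wd m n i x).image (fun t => (Dd m n i - t) / Qs m n i) :=
    mem_image_of_mem _ (by rw [Wd, mem_filter]; exact ⟨ht, hD1, hD2⟩)
  rw [h4] at h5
  obtain ⟨t', ht', he⟩ := mem_image.1 h5
  rw [Wd, mem_filter] at ht'
  have h6 := mem_filter.1 (hx' ht'.1)
  have h7 := div_inj (Qs_pos m n i) (Qs_dvd h6.2 (mem_Icc.1 h6.1).1 ht'.2.1)
    (Qs_dvd h1.2 h2.1 hD1) ht'.2.2 hD2 he
  rw [← h7]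
  exact ht'.1

end

/-! ## The numbers -/

/-- the entries -/
def Zz (m n : ℕ) (x : Finset ℕ) (c : ℕ) : ℕ :=
  if c = 0 then 2 ^ n else if c = 1 then ∑ t ∈ x, 2 ^ (n - t) else
    if c % 2 = 0 then Xx m n ((c - 2) / 2) x else Xx m n ((c - 2) / 2) x ^ 2

/-- the number of the channels -/
def Cc (m : ℕ) : ℕ := 2 * m + 4

/-- the base -/
def bb (m : ℕ) : ℕ := 3 ^ Cc m

/-- the number -/
def aa (m n : ℕ) (x : Finset ℕ) : ℕ := tot (bb m) (Cc m) (Zz m n x)

/-- the set -/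
def AA (m : ℕ) : Set ℕ := {a | ∃ (n : ℕ) (x : Finset ℕ), x ⊆ Sn m n ∧ a = aa m n x}

theorem Zz_zero (m n : ℕ) (x : Finset ℕ) : Zz m n x 0 = 2 ^ n := by simp [Zz]

theorem Zz_one (m n : ℕ) (x : Finset ℕ) : Zz m n x 1 = ∑ t ∈ x, 2 ^ (n - t) := by simp [Zz]

theorem Zz_ev (m n : ℕ) (x : Finset ℕ) (i : ℕ) : Zz m n x (2 * i + 2) = Xx m n i x := by
  unfold Zz
  rw [if_neg (by omega), if_neg (by omega), if_pos (by omega)]
  congr 1
  omega

theorem Zz_od (m n : ℕ) (x : Finset ℕ) (i : ℕ) : Zz m n x (2 * i + 3) = Xx m n i x ^ 2 := by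
  unfold Zz
  rw [if_neg (by omega), if_neg (by omega), if_neg (by omega)]
  congr 2
  omega

theorem bare_lt {m n : ℕ} {x : Finset ℕ} (hx : x ⊆ Sn m n) : ∑ t ∈ x, 2 ^ (n - t) < 2 ^ n := by
  have h1 : ∑ t ∈ x, 2 ^ (n - t) = ∑ k ∈ x.image (fun t => n - t), 2 ^ k := by
    rw [sum_image]
    intro t ht t' ht' h
    have h1 := mem_Icc.1 (mem_filter.1 (hx ht)).1
    have h2 := mem_Icc.1 (mem_filter.1 (hx ht')).1
    simp only at h
    omega
  rw [h1]
  refine Nat.geomSum_lt le_rfl fun k hk => ?_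
  obtain ⟨t, ht, rfl⟩ := mem_image.1 hk
  have h1 := mem_Icc.1 (mem_filter.1 (hx ht)).1
  omega

theorem Zz_lt {m n : ℕ} (hm : 1 ≤ m) {x : Finset ℕ} (hx : x ⊆ Sn m n) {c : ℕ} (hc : c < Cc m) :
    Zz m n x c < 2 ^ (n + 1) := by
  have hlt : 2 ^ n < 2 ^ (n + 1) := Nat.pow_lt_pow_right (by norm_num) (by omega)
  rcases Nat.eq_zero_or_pos c with rfl | h0
  · rw [Zz_zero]
    exact hlt
  by_cases h1 : c = 1
  · subst h1
    rw [Zz_one]
    exact (bare_lt hx).trans hlt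
  · have hi : (c - 2) / 2 ≤ m := by
      unfold Cc at hc
      omega
    have h2 := Xx_lt hm hx hi
    have h3 : 2 ^ (n - Dd m n ((c - 2) / 2)) ≤ 2 ^ n := Nat.pow_le_pow_right (by norm_num) (by omega)
    unfold Zz
    rw [if_neg (by omega), if_neg h1]
    split_ifs
    · have h4 : Xx m n ((c - 2) / 2) x ≤ Xx m n ((c - 2) / 2) x ^ 2 := Nat.le_self_pow (by norm_num) _
      omega
    · omega

theorem aa_size {m n : ℕ} (hm : 1 ≤ m) {x : Finset ℕ} (hx : x ⊆ Sn m n) :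
    bb m ^ n ≤ aa m n x ∧ aa m n x < bb m ^ (n + 1) :=
  tot_size le_rfl (by unfold Cc; omega) (Zz_zero m n x) fun c hc => Zz_lt hm hx hc

theorem aa_inj {m n n' : ℕ} (hm : 1 ≤ m) {x x' : Finset ℕ} (hx : x ⊆ Sn m n) (hx' : x' ⊆ Sn m n')
    (h : aa m n x = aa m n' x') : n = n' ∧ x = x' := by
  have h1 := tot_inj (le_refl (bb m)) h
  have h2 := h1 0 (by unfold Cc; omega)
  rw [Zz_zero, Zz_zero] at h2
  have h3 : n = n' := Nat.pow_right_injective (le_refl 2) h2
  subst h3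
  refine ⟨rfl, ?_⟩
  have h4 : ∀ i ≤ m, Xx m n i x = Xx m n i x' := by
    intro i hi
    have := h1 (2 * i + 2) (by unfold Cc; omega)
    rwa [Zz_ev, Zz_ev] at this
  exact Subset.antisymm (Xx_inj hm hx hx' h4) (Xx_inj hm hx' hx fun i hi => (h4 i hi).symm)

/-! ## The prefixes -/

theorem Wd_congr {m n i J : ℕ} {x x' : Finset ℕ} (h : ∀ t ≤ J, t ∈ x ↔ t ∈ x')
    (hJ : Dd m n i ≤ J) : Wd m n i x = Wd m n i x' := by
  ext t
  rw [Wd, Wd, mem_filter, mem_filter]
  constructor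
  · rintro ⟨h1, h2, h3⟩
    exact ⟨(h t (h3.trans hJ)).1 h1, h2, h3⟩
  · rintro ⟨h1, h2, h3⟩
    exact ⟨(h t (h3.trans hJ)).2 h1, h2, h3⟩

theorem bare_div {m n J : ℕ} {x : Finset ℕ} (hx : x ⊆ Sn m n) (hJ : J ≤ n) :
    (∑ t ∈ x, 2 ^ (n - t)) / 2 ^ (n - J) = ∑ t ∈ x.filter (· ≤ J), 2 ^ (J - t) := by
  have h1 : ∑ t ∈ x, 2 ^ (n - t) = (∑ t ∈ x.filter (fun t => ¬ t ≤ J), 2 ^ (n - t)) +
      2 ^ (n - J) * ∑ t ∈ x.filter (· ≤ J), 2 ^ (J - t) := by
    rw [← sum_filter_add_sum_filter_not x (· ≤ J), add_comm, mul_sum]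
    congr 1
    refine sum_congr rfl fun t ht => ?_
    have := (mem_filter.1 ht).2
    rw [← pow_add]
    congr 1
    omega
  have h2 : ∑ t ∈ x.filter (fun t => ¬ t ≤ J), 2 ^ (n - t) < 2 ^ (n - J) := by
    have h3 : ∑ t ∈ x.filter (fun t => ¬ t ≤ J), 2 ^ (n - t) =
        ∑ k ∈ (x.filter (fun t => ¬ t ≤ J)).image (fun t => n - t), 2 ^ k := by
      rw [sum_image]
      intro t ht t' ht' h
      have h1 := mem_Icc.1 (mem_filter.1 (hx (mem_filter.1 ht).1)).1
      have h2 := mem_Icc.1 (mem_filter.1 (hx (mem_filter.1 ht').1)).1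
      simp only at h
      omega
    rw [h3]
    refine Nat.geomSum_lt le_rfl fun k hk => ?_
    obtain ⟨t, ht, rfl⟩ := mem_image.1 hk
    have h1 := mem_Icc.1 (mem_filter.1 (hx (mem_filter.1 ht).1)).1
    have h2 := (mem_filter.1 ht).2
    omega
  rw [h1, Nat.add_mul_div_left _ _ (by positivity), Nat.div_eq_of_lt h2, zero_add]

/-- the first digits depend only on the first bits -/
theorem pre_eq {m n J : ℕ} (hm : 1 ≤ m) {x x' : Finset ℕ} (hx : x ⊆ Sn m n) (hx' : x' ⊆ Sn m n)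
    (hJ : J ≤ n) (h : ∀ t ≤ J, t ∈ x ↔ t ∈ x') :
    aa m n x / bb m ^ (n - J) = aa m n x' / bb m ^ (n - J) := by
  unfold aa
  rw [tot_div (show 3 ^ Cc m ≤ bb m from le_rfl), tot_div (show 3 ^ Cc m ≤ bb m from le_rfl)]
  refine tot_congr fun c hc => ?_
  rcases Nat.eq_zero_or_pos c with rfl | h0
  · rw [Zz_zero, Zz_zero]
  by_cases h1 : c = 1
  · subst h1
    rw [Zz_one, Zz_one, bare_div hx hJ, bare_div hx' hJ]
    refine sum_congr ?_ fun _ _ => rfl
    ext t
    rw [mem_filter, mem_filter]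
    constructor
    · rintro ⟨h2, h3⟩
      exact ⟨(h t h3).1 h2, h3⟩
    · rintro ⟨h2, h3⟩
      exact ⟨(h t h3).2 h2, h3⟩
  · have hi : (c - 2) / 2 ≤ m := by
      unfold Cc at hc
      omega
    by_cases hD : Dd m n ((c - 2) / 2) ≤ J
    · have h2 : Xx m n ((c - 2) / 2) x = Xx m n ((c - 2) / 2) x' := by
        unfold Xx
        rw [Wd_congr h hD]
      have h3 : Zz m n x c = Zz m n x' c := by
        have h4 : ¬ c = 0 := by omega
        simp only [Zz, if_neg h4, if_neg h1, h2]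
      rw [h3]
    · have hz : ∀ y : Finset ℕ, y ⊆ Sn m n → Zz m n y c / 2 ^ (n - J) = 0 := by
        intro y hy
        refine Nat.div_eq_of_lt ?_
        have h2 := Xx_lt hm hy hi
        have h3 : 2 ^ (n - Dd m n ((c - 2) / 2)) ≤ 2 ^ (n - J) :=
          Nat.pow_le_pow_right (by norm_num) (by omega)
        unfold Zz
        rw [if_neg (by omega), if_neg h1]
        split_ifs
        · have h4 : Xx m n ((c - 2) / 2) y ≤ Xx m n ((c - 2) / 2) y ^ 2 :=
            Nat.le_self_pow (by norm_num) _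
          omega
        · omega
      rw [hz x hx, hz x' hx']

end Pool.Agent.Q208.HT
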